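import Pool.Agent.Run7.h638.WR.Iface

set_option autoImplicit false

universe u

namespace Pool.Agent.Run7.h638.WR

theorem t_NF : NF := by
  intro n1 n2 n3 K Γ Q dK prog e q0 S0 L he hL hlen hc τ hτ0 hτ
  obtain ⟨c, hr, hs, hp⟩ := hc
  obtain ⟨θ, hH, hV, h0⟩ := n1 K Γ Q prog e q0 S0 L he hL hlen τ hτ0 hτ
  have key : ∀ a : Q × (K → List Γ), Reach prog (q0, S0) a → ∃ i, RowOk (θ i) a := by
    intro a ha
    induction ha with
    | refl => exact ⟨0, h0⟩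
    | @tail b c' _ h ih =>
      obtain ⟨i, hi⟩ := ih
      exact ⟨i + 1, n2 K Γ Q dK prog (θ i) (θ (i + 1)) b c' (hH i) (hH (i + 1)) (hV i) hi h⟩
  obtain ⟨i, hi⟩ := key c hr
  exact n3 K Γ Q dK prog (θ i) (θ (i + 1)) c (hV i) hi hs hp

end Pool.Agent.Run7.h638.WR
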