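import Pool.Agent.Run7.h638.WR.Iface

/-! # Piece O2 of the project WR (MP_5885b3_lc): the computable list of the allowed tiles -/

set_option autoImplicit false

namespace Pool.Agent.Run7.h638.WR.O2c

open Pool.Agent.Run7.h638.WR Turing Turing.PartrecToTM2

instance finite_K' : Finite K' := by
  refine Finite.of_injective (fun k : K' => (match k with
    | .main => 0
    | .rev => 1
    | .aux => 2
    | .stack => 3 : Fin 4)) ?_
  intro a b h
  cases a <;> cases b <;> first | rfl | (exact absurd h (by decide))

instance finite_St : Finite St := by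
  refine Finite.of_injective (fun k : St => (match k with
    | .run => 0
    | .sx => 1
    | .sb => 2 : Fin 3)) ?_
  intro a b h
  cases a <;> cases b <;> first | rfl | (exact absurd h (by decide))

instance finite_Base (K Γ Q : Type) [Finite K] [Finite Γ] [Finite Q] : Finite (Base K Γ Q) := by
  refine Finite.of_injective (fun b : Base K Γ Q => (match b with
    | .J => none
    | .ctl s q => some (Sum.inl (s, q))
    | .cell s q l => some (Sum.inr (s, q, l)) :
      Option (Sum (St × Q) (St × Q × (K → Option Γ))))) ?_
  intro a b h
  cases a <;> cases b <;> simp_all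

/-- the letters by number -/
def dec : ℕ → Option (Option Γ')
  | 0 => none
  | 1 => some none
  | 2 => some (some Γ'.cons)
  | 3 => some (some Γ'.bit0)
  | _ => some (some Γ'.bit1)

/-- the code of the main stack -/
def mc (g : List Bool) : List ℕ := g.map (fun b => cond b 4 3) ++ [2, 1]

theorem dec_mc (g : List Bool) (i : ℕ) :
    dec ((mc g).getD i 0) =
      ((g.map (fun b => cond b Γ'.bit1 Γ'.bit0)).map some ++ [some Γ'.cons, none])[i]? := by
  induction g generalizing i with
  | nil =>
    match i with
    | 0 => rfl
    | 1 => rfl
    | i + 2 => simp [mc, dec]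
  | cons b g ih =>
    match i with
    | 0 => cases b <;> simp [mc, dec]
    | i + 1 =>
      have h := ih i
      simpa [mc] using h

/-- the tile of a cell of the start row -/
def KK {Q : Type} (q0 : Q) (e : Base K' (Option Γ') Q → ℕ) (b : Bool) (c : ℕ) : ℕ :=
  e (.cell .sx q0 (fun k => if k = K'.main then dec c else if b then some none else none))

theorem KK_primrec {Q : Type} (q0 : Q) (e : Base K' (Option Γ') Q → ℕ) (b : Bool) :
    Primrec (KK q0 e b) := by
  have h : KK q0 e b = fun c => if c = 0 then KK q0 e b 0 else if c = 1 then KK q0 e b 1 else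
      if c = 2 then KK q0 e b 2 else if c = 3 then KK q0 e b 3 else KK q0 e b 4 := by
    funext c
    match c with
    | 0 => rfl
    | 1 => rfl
    | 2 => rfl
    | 3 => rfl
    | c + 4 => rfl
  rw [h]
  have hc : ∀ a : ℕ, PrimrecPred (fun c : ℕ => c = a) := fun a =>
    Primrec.eq.comp Primrec.id (Primrec.const a)
  exact Primrec.ite (hc 0) (Primrec.const _) (Primrec.ite (hc 1) (Primrec.const _)
    (Primrec.ite (hc 2) (Primrec.const _) (Primrec.ite (hc 3) (Primrec.const _)
      (Primrec.const _))))

/-- the tile of column `j` of the start row -/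
def vv {Q : Type} (q0 : Q) (e : Base K' (Option Γ') Q → ℕ) (g : List Bool) (j : ℕ) : ℕ :=
  if j = 0 then e (.ctl .sx q0) else if j = 1 then KK q0 e true ((mc g).getD (j - 1) 0)
    else KK q0 e false ((mc g).getD (j - 1) 0)

theorem mc_primrec : Primrec mc := by
  refine Primrec.list_append.comp ?_ (Primrec.const _)
  refine Primrec.list_map Primrec.id ?_
  exact (Primrec.dom_bool (fun b : Bool => cond b 4 3)).comp Primrec.snd

theorem vv_primrec {Q : Type} (q0 : Q) (e : Base K' (Option Γ') Q → ℕ) :
    Primrec (fun p : List Bool × ℕ => vv q0 e p.1 p.2) := by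
  have hc : ∀ a : ℕ, PrimrecPred (fun p : List Bool × ℕ => p.2 = a) := fun a =>
    Primrec.eq.comp Primrec.snd (Primrec.const a)
  have hg : Primrec (fun p : List Bool × ℕ => (mc p.1).getD (p.2 - 1) 0) :=
    (Primrec.list_getD 0).comp (mc_primrec.comp Primrec.fst)
      (Primrec.nat_sub.comp Primrec.snd (Primrec.const 1))
  exact Primrec.ite (hc 0) (Primrec.const _) (Primrec.ite (hc 1)
    ((KK_primrec q0 e true).comp hg) ((KK_primrec q0 e false).comp hg))

theorem t_O2 : O2 := by
  rintro ⟨g, hg, hgt⟩ Q hQ q0 e
  -- the constant part
  have hfin : ({x : Tile | x.2 = 0 ∧ ∃ θ : Base K' (Option Γ') Q, NS θ ∧ x.1 = e θ}).Finite := by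
    have h1 : (Set.range (fun θ : Base K' (Option Γ') Q => ((e θ, 0) : Tile))).Finite :=
      Set.finite_range _
    refine h1.subset ?_
    rintro ⟨a, b⟩ ⟨h2, θ, -, h3⟩
    exact ⟨θ, by simp only at h2 h3; rw [h2, h3]⟩
  have hlen : ∀ n, (trNat n).length = (g n).length := by
    intro n
    rw [hgt n, List.length_map]
  have hrow : ∀ n j, e (srow q0 (Pool.Agent.H662R2.SM.start n) j) = vv q0 e (g n) j := by
    intro n j
    unfold srow vv
    by_cases h0 : j = 0
    · rw [if_pos h0, if_pos h0]
    · rw [if_neg h0, if_neg h0]
      have hf : ∀ b : Bool, b = decide (j = 1) →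
          (fun k => (Pool.Agent.H662R2.SM.start n k)[j - 1]?) = fun k =>
            if k = K'.main then dec ((mc (g n)).getD (j - 1) 0)
              else if b then some none else none := by
        intro b hb
        funext k
        by_cases hk : k = K'.main
        · subst hk
          rw [if_pos rfl, dec_mc, ← hgt n]
          simp [Pool.Agent.H662R2.SM.start]
        · rw [if_neg hk]
          have h1 : Pool.Agent.H662R2.SM.start n k = [none] := by
            unfold Pool.Agent.H662R2.SM.start
            rw [Function.update_of_ne hk]
          rw [h1, hb]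
          by_cases hj : j = 1
          · subst hj
            rfl
          · rw [if_neg (by simp [hj])]
            rw [List.getElem?_eq_none]
            simp
            omega
      by_cases h1 : j = 1
      · rw [if_pos h1]
        unfold KK
        rw [hf true (by simp [h1])]
      · rw [if_neg h1]
        unfold KK
        rw [hf false (by simp [h1])]
  refine ⟨fun n => hfin.toFinset.toList ++
    (List.range ((g n).length + 3)).map (fun j => (vv q0 e (g n) j, j + 1)), ?_, ?_⟩
  · refine Primrec.to_comp ?_
    refine Primrec.list_append.comp (Primrec.const _) ?_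
    refine Primrec.list_map (Primrec.list_range.comp (Primrec.nat_add.comp
      (Primrec.list_length.comp hg) (Primrec.const 3))) ?_
    refine Primrec.pair ?_ (Primrec.succ.comp Primrec.snd)
    exact (vv_primrec q0 e).comp (Primrec.pair (hg.comp Primrec.fst) Primrec.snd)
  · intro n x
    rw [List.mem_append, Finset.mem_toList, Set.Finite.mem_toFinset, List.mem_map]
    unfold TileOk
    apply or_congr Iff.rfl
    rw [hlen]
    constructor
    · rintro ⟨j, hj, rfl⟩
      rw [List.mem_range] at hj
      refine ⟨by simp, by simp only; omega, ?_⟩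
      simp only [Nat.add_sub_cancel]
      exact (hrow n j).symm
    · rintro ⟨h1, h2, h3⟩
      refine ⟨x.2 - 1, List.mem_range.2 (by omega), ?_⟩
      refine Prod.ext ?_ ?_
      · simp only
        rw [h3, hrow]
      · simp only
        omega

end Pool.Agent.Run7.h638.WR.O2c
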