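import Pool.Agent.Run7.h638.WR.Iface

set_option autoImplicit false

universe u

namespace Pool.Agent.Run7.h638.WR

theorem sort_of_sub {Q : List Win} {X : Type u} [PartialOrder X] {h : Set (At Q) → X → X → Prop}
    (hF : Facts Q h) {σ : X → ℕ} (hσ : Sorts Q h σ) {S : Set (At Q)} {i j : ℕ}
    (hS : S ⊆ bk Q i j) {x y : X} (hxy : h S x y) : σ x = i ∧ σ y = j := by
  have h1 := hF.inter S (bk Q (σ x) (σ y)) x y hxy (hσ.2 x y)
  by_contra hne
  have h2 : S ∩ bk Q (σ x) (σ y) = ∅ := by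
    ext c
    simp only [Set.mem_inter_iff, Set.mem_empty_iff_false, iff_false, not_and]
    intro hc hc'
    have h3 := hS hc
    simp only [bk, Set.mem_setOf_eq] at h3 hc'
    rw [h3] at hc'
    exact hne ⟨(Prod.mk.inj hc').1.symm, (Prod.mk.inj hc').2.symm⟩
  rw [h2] at h1
  exact hF.bot x y h1

theorem sg_sub (Q : List Win) (i j : ℕ) (u : Win) : sg Q i j u ⊆ bk Q i j := by
  intro c hc
  simp only [sg, bk, Set.mem_setOf_eq] at hc ⊢
  rw [hc]

theorem t_QF : QF.{u} := by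
  intro qa qs qd qp qq qw Q s hs hrep
  obtain ⟨X, io, h, hr⟩ := hrep
  have hF := qa Q X io h hr
  obtain ⟨σ, hσ⟩ := qs Q X io h hF
  obtain ⟨w, hw, hws⟩ := hs
  have hat : IsAtom Q ((1, 4), tl s) := by
    refine ⟨by norm_num, by norm_num, ?_⟩
    have hk : kind 1 4 = 3 := by simp [kind]
    simp only [blk, hk]
    simp only [OfNat.ofNat_ne_one, if_false, Nat.reduceEqDiff, if_true]
    refine List.mem_map.2 ⟨w, hw, ?_⟩
    simp [prj, tl, hws]
  obtain ⟨x, y, hxy⟩ := hF.ne (sg Q 1 4 (tl s)) ⟨⟨((1, 4), tl s), hat⟩, rfl⟩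
  obtain ⟨hx, hy⟩ := sort_of_sub hF hσ (sg_sub Q 1 4 (tl s)) hxy
  obtain ⟨p, p', hp0, hp⟩ := qp Q X io h hF σ hσ x hx
  obtain ⟨q, q', hq0, hq⟩ := qq Q X io h hF σ hσ y hy
  choose τ hτ using fun i j => qd Q X io h hF σ hσ (p i) (q j) (hp i).1 (hq j).1
  refine ⟨τ, ?_, ?_⟩
  · have h1 := hτ 0 0
    rw [hp0, hq0] at h1
    have h2 := hF.inter _ _ x y h1 hxy
    by_contra hne
    have h3 : sg Q 1 4 (tl (τ 0 0)) ∩ sg Q 1 4 (tl s) = ∅ := by
      ext c
      simp only [Set.mem_inter_iff, Set.mem_empty_iff_false, iff_false, not_and]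
      intro hc hc'
      simp only [sg, Set.mem_setOf_eq] at hc hc'
      rw [hc] at hc'
      have := (Prod.mk.inj hc').2
      simp only [tl, Prod.mk.injEq] at this
      exact hne this.1.1
    rw [h3] at h2
    exact hF.bot x y h2
  · intro i j
    exact qw Q X io h hF (p' i) (p i) (p (i + 1)) (q' j) (q j) (q (j + 1)) _ _ _ _
      (hp i).2.1 (hp i).2.2 (hq j).2.1 (hq j).2.2 (hτ i j) (hτ i (j + 1)) (hτ (i + 1) j)
      (hτ (i + 1) (j + 1))

end Pool.Agent.Run7.h638.WR
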