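import Pool.Agent.Run7.h638.WR.Iface

set_option autoImplicit false

namespace Pool.Agent.Run7.h638.WR

section

variable {n m : ℕ} (T : ZMod n → ZMod m → Tile) (i j : ℕ) (y y' : Yt n m)

theorem kap_one_zero (h : kind i j = 1) (hi : i = 0) : kap T i j y y' =
    if y' = y then lb 0 else if y' = y + ea n m then lb 1 else lb 2 := by
  unfold kap; rw [if_pos h, if_pos hi]

theorem kap_one_four (h : kind i j = 1) (hi : i ≠ 0) : kap T i j y y' =
    if y' = y then lb 0 else if y = y' + eb n m then lb 1 else lb 2 := by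
  unfold kap; rw [if_pos h, if_neg hi]

theorem kap_two (h : kind i j = 2) : kap T i j y y' = if y' = y then lb 0 else lb 2 := by
  unfold kap; rw [if_neg (by omega), if_pos h]

theorem kap_three (h : kind i j = 3) : kap T i j y y' =
    prj i j (winT T (y.1 + y'.1) (y.2.1 + y'.2.1)) := by
  unfold kap; rw [if_neg (by omega), if_neg (by omega), if_pos h]

theorem kap_zero (h : kind i j = 0) : kap T i j y y' = lb 0 := by
  unfold kap; rw [if_neg (by omega), if_neg (by omega), if_neg (by omega)]

theorem kind_cases : kind i j = 0 ∨ kind i j = 1 ∨ kind i j = 2 ∨ kind i j = 3 := by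
  unfold kind
  split_ifs <;> simp

theorem blk_one (Q : List Win) (h : kind i j = 1) : blk Q i j = [lb 0, lb 1, lb 2] := by
  unfold blk; rw [if_pos h]

theorem blk_two (Q : List Win) (h : kind i j = 2) : blk Q i j = [lb 0, lb 2] := by
  unfold blk; rw [if_neg (by omega), if_pos h]

theorem blk_three (Q : List Win) (h : kind i j = 3) : blk Q i j = Q.map (prj i j) := by
  unfold blk; rw [if_neg (by omega), if_neg (by omega), if_pos h]

theorem blk_zero (Q : List Win) (h : kind i j = 0) : blk Q i j = [lb 0] := by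
  unfold blk; rw [if_neg (by omega), if_neg (by omega), if_neg (by omega)]

end

theorem z5a : ∀ a : ZMod 5, a + 1 ≠ a := by decide
theorem z5b : ∀ a : ZMod 5, a + 2 ≠ a := by decide
theorem z5c : ∀ a : ZMod 5, a + 2 ≠ a + 1 := by decide
theorem z5d : ∀ a b : ZMod 5, ∃ c, c ≠ a ∧ c ≠ a + 1 ∧ c ≠ b := by decide

theorem ea_ne {n m : ℕ} (y : Yt n m) : y + ea n m ≠ y := by
  intro h
  have := congrArg (fun z : Yt n m => z.2.2) h
  simp only [ea, Prod.snd_add] at this
  exact z5a _ this

theorem eb_ne {n m : ℕ} (y : Yt n m) : y + eb n m ≠ y := by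
  intro h
  have := congrArg (fun z : Yt n m => z.2.2) h
  simp only [eb, Prod.snd_add] at this
  exact z5a _ this

theorem ne_of_third {n m : ℕ} {y y' : Yt n m} (h : y.2.2 ≠ y'.2.2) : y ≠ y' :=
  fun e => h (by rw [e])

theorem ea_third {n m : ℕ} (y : Yt n m) : (y + ea n m).2.2 = y.2.2 + 1 := rfl

theorem eb_third {n m : ℕ} (y : Yt n m) : (y + eb n m).2.2 = y.2.2 + 1 := rfl

theorem lb_ne {a b : ℕ} (h : a ≠ b) : lb a ≠ lb b := by
  intro e
  simp only [lb, Prod.mk.injEq] at e
  exact h e.1.1.1

theorem t_RR : RR := by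
  intro n m _ _ T Q hQ i j hi hj
  have mem3 : ∀ a b, prj i j (winT T a b) ∈ Q.map (prj i j) := fun a b =>
    List.mem_map.2 ⟨_, (hQ _).2 ⟨a, b, rfl⟩, rfl⟩
  refine ⟨?_, ?_, ?_⟩
  · intro y y'
    rcases kind_cases i j with h | h | h | h
    · rw [kap_zero T i j y y' h, blk_zero i j Q h]; simp
    · by_cases h0 : i = 0
      · rw [kap_one_zero T i j y y' h h0, blk_one i j Q h]
        split_ifs <;> simp
      · rw [kap_one_four T i j y y' h h0, blk_one i j Q h]
        split_ifs <;> simp
    · rw [kap_two T i j y y' h, blk_two i j Q h]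
      split_ifs <;> simp
    · rw [kap_three T i j y y' h, blk_three i j Q h]
      exact mem3 _ _
  · intro u hu y
    rcases kind_cases i j with h | h | h | h
    · rw [blk_zero i j Q h] at hu
      simp only [List.mem_singleton] at hu
      exact ⟨y, by rw [kap_zero T i j y y h, hu]⟩
    · rw [blk_one i j Q h] at hu
      simp only [List.mem_cons, List.not_mem_nil, or_false] at hu
      by_cases h0 : i = 0
      · rcases hu with rfl | rfl | rfl
        · exact ⟨y, by rw [kap_one_zero T i j _ _ h h0, if_pos rfl]⟩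
        · exact ⟨y + ea n m, by rw [kap_one_zero T i j _ _ h h0, if_neg (ea_ne y), if_pos rfl]⟩
        · refine ⟨(y.1, y.2.1, y.2.2 + 2), ?_⟩
          rw [kap_one_zero T i j _ _ h h0, if_neg (ne_of_third (z5b _)),
            if_neg (ne_of_third (by rw [ea_third]; exact z5c _))]
      · rcases hu with rfl | rfl | rfl
        · exact ⟨y, by rw [kap_one_four T i j _ _ h h0, if_pos rfl]⟩
        · refine ⟨y - eb n m, ?_⟩
          rw [kap_one_four T i j _ _ h h0, if_neg, if_pos (by simp)]
          intro e
          have := eb_ne (y - eb n m)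
          rw [sub_add_cancel] at this
          exact this e.symm
        · refine ⟨(y.1, y.2.1, y.2.2 + 2), ?_⟩
          rw [kap_one_four T i j _ _ h h0, if_neg (ne_of_third (z5b _)), if_neg]
          refine ne_of_third ?_
          rw [eb_third]
          show y.2.2 ≠ y.2.2 + 2 + 1
          revert y; intro y; generalize y.2.2 = a; revert a; decide
    · rw [blk_two i j Q h] at hu
      simp only [List.mem_cons, List.not_mem_nil, or_false] at hu
      rcases hu with rfl | rfl
      · exact ⟨y, by rw [kap_two T i j _ _ h, if_pos rfl]⟩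
      · refine ⟨(y.1, y.2.1, y.2.2 + 1), ?_⟩
        rw [kap_two T i j _ _ h, if_neg (ne_of_third (z5a _))]
    · rw [blk_three i j Q h] at hu
      obtain ⟨w, hw, rfl⟩ := List.mem_map.1 hu
      obtain ⟨a, b, rfl⟩ := (hQ w).1 hw
      refine ⟨(a - y.1, b - y.2.1, 0), ?_⟩
      rw [kap_three T i j _ _ h]
      simp
  · intro u hu y
    rcases kind_cases i j with h | h | h | h
    · rw [blk_zero i j Q h] at hu
      simp only [List.mem_singleton] at hu
      exact ⟨y, by rw [kap_zero T i j y y h, hu]⟩
    · rw [blk_one i j Q h] at hu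
      simp only [List.mem_cons, List.not_mem_nil, or_false] at hu
      by_cases h0 : i = 0
      · rcases hu with rfl | rfl | rfl
        · exact ⟨y, by rw [kap_one_zero T i j _ _ h h0, if_pos rfl]⟩
        · refine ⟨y - ea n m, ?_⟩
          rw [kap_one_zero T i j _ _ h h0, if_neg, if_pos (by simp)]
          intro e
          have := ea_ne (y - ea n m)
          rw [sub_add_cancel] at this
          exact this e
        · refine ⟨(y.1, y.2.1, y.2.2 + 2), ?_⟩
          rw [kap_one_zero T i j _ _ h h0, if_neg (ne_of_third (z5b _).symm), if_neg]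
          refine ne_of_third ?_
          rw [ea_third]
          show y.2.2 ≠ y.2.2 + 2 + 1
          generalize y.2.2 = a; revert a; decide
      · rcases hu with rfl | rfl | rfl
        · exact ⟨y, by rw [kap_one_four T i j _ _ h h0, if_pos rfl]⟩
        · exact ⟨y + eb n m, by
            rw [kap_one_four T i j _ _ h h0, if_neg (eb_ne y).symm, if_pos rfl]⟩
        · refine ⟨(y.1, y.2.1, y.2.2 + 2), ?_⟩
          rw [kap_one_four T i j _ _ h h0, if_neg (ne_of_third (z5b _).symm),
            if_neg (ne_of_third (by rw [eb_third]; exact z5c _))]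
    · rw [blk_two i j Q h] at hu
      simp only [List.mem_cons, List.not_mem_nil, or_false] at hu
      rcases hu with rfl | rfl
      · exact ⟨y, by rw [kap_two T i j _ _ h, if_pos rfl]⟩
      · refine ⟨(y.1, y.2.1, y.2.2 + 1), ?_⟩
        rw [kap_two T i j _ _ h, if_neg (ne_of_third (z5a _).symm)]
    · rw [blk_three i j Q h] at hu
      obtain ⟨w, hw, rfl⟩ := List.mem_map.1 hu
      obtain ⟨a, b, rfl⟩ := (hQ w).1 hw
      refine ⟨(a - y.1, b - y.2.1, 0), ?_⟩
      rw [kap_three T i j _ _ h]
      simp

end Pool.Agent.Run7.h638.WR
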