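import Pool.Agent.Run7.h638.WR.Iface

set_option autoImplicit false

universe u

namespace Pool.Agent.Run7.h638.WR

open Turing Turing.PartrecToTM2

theorem finK' : Finite K' := by
  refine Finite.of_injective (β := Fin 4)
    (fun k => match k with
      | .main => 0
      | .rev => 1
      | .aux => 2
      | .stack => 3) ?_
  intro a b
  cases a <;> cases b <;> simp

theorem finΓ' : Finite Γ' := inferInstance

theorem t_SMB : SMB := by
  intro sma
  obtain ⟨Q, fQ, M, q0, acc, h1, h2, h3⟩ :=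
    Pool.Agent.H662R2.SM.exists_mach Pool.Agent.H662R2.SM.diag Pool.Agent.H662R2.SM.diag_partrec
  obtain ⟨Q', fQ', prog, ι, a1, a2, a3⟩ :=
    sma K' (Option Γ') Q inferInstance finK' inferInstance fQ M acc h1
  have key : ∀ c c' : Q × (K' → List (Option Γ')), M.Reaches c c' →
      Reach prog (ι c.1, c.2) (ι c'.1, c'.2) := by
    intro c c' h
    induction h with
    | refl => exact Relation.ReflTransGen.refl
    | @tail b d _ h ih =>
      exact Relation.ReflTransGen.trans ih (a1 b.1 b.2 d.1 d.2 h)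
  refine ⟨Q', fQ', prog, ι q0, ?_, ?_⟩
  · intro n hn
    obtain ⟨q, S, o, z, hr, hS, ha⟩ := h2 n hn
    obtain ⟨c, hc, hp⟩ := a2 q S o z hS ha
    exact ⟨c, Relation.ReflTransGen.trans (key _ _ hr) hc, hp⟩
  · intro n hn
    obtain ⟨q, S, hr, hS, ha⟩ := h3 n hn
    obtain ⟨c, hc, hs, hp⟩ := a3 q S hS ha
    exact ⟨c, Relation.ReflTransGen.trans (key _ _ hr) hc, hs, hp⟩

end Pool.Agent.Run7.h638.WR
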