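import Mathlib

/-!
# Representability by weakening relations: definitions (MP_5885b3_lc, Q1)
-/

set_option autoImplicit false

universe u

namespace Pool.Agent.Run7.h638.WR

/-! ## Weakening relations, representations, coded finite algebras -/

/-- `R` is a weakening relation on the poset `X`. -/
def IsWeakening {X : Type u} [PartialOrder X] (R : X → X → Prop) : Prop :=
  ∀ x' x y y', x' ≤ x → R x y → y ≤ y' → R x' y'

/-- Relational composition. -/
def relComp {X : Type u} (R S : X → X → Prop) : X → X → Prop :=
  fun x z => ∃ y, R x y ∧ S y z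

/-- The implication of weakening relations. -/
def relImp {X : Type u} [PartialOrder X] (R S : X → X → Prop) : X → X → Prop :=
  fun x y => ∀ x' y', x' ≤ x → y ≤ y' → R x' y' → S x' y'

/-- `h` is a representation of the algebra `(A, comp, imp)` by weakening relations on `X`. -/
structure IsRep {A : Type} (comp imp : A → A → A) {X : Type u} [PartialOrder X]
    (h : A → X → X → Prop) : Prop where
  inj : Function.Injective h
  weak : ∀ a, IsWeakening (h a)
  comp : ∀ a b, h (comp a b) = relComp (h a) (h b)
  imp : ∀ a b, h (imp a b) = relImp (h a) (h b)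

/-- `(A, comp, imp)` is a representable weakening implication semigroup. -/
def Rep {A : Type} (comp imp : A → A → A) : Prop :=
  ∃ (X : Type u) (_ : PartialOrder X) (h : A → X → X → Prop), IsRep comp imp h

/-- `(A, comp, imp)` has a finite representation. -/
def FinRep {A : Type} (comp imp : A → A → A) : Prop :=
  ∃ (X : Type u) (_ : PartialOrder X) (h : A → X → X → Prop), Finite X ∧ IsRep comp imp h

/-- The operation on `{0, …, n}` with the table `l` (row by row, the entries modulo `n + 1`,
missing entries are `0`). -/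
def op (n : ℕ) (l : List ℕ) (i j : Fin (n + 1)) : Fin (n + 1) :=
  Fin.ofNat (n + 1) (l.getD (i.val * (n + 1) + j.val) 0)

/-- A code `(n, (c, d))` of a finite algebra with elements `0, …, n`. -/
abbrev Code : Type := ℕ × (List ℕ × List ℕ)

/-- The coded algebra is representable. -/
def RepCode (x : Code) : Prop := Rep.{u} (op x.1 x.2.1) (op x.1 x.2.2)

/-- The coded algebra has a finite representation. -/
def FinRepCode (x : Code) : Prop := FinRep.{u} (op x.1 x.2.1) (op x.1 x.2.2)

/-! ## Windows of tilings and their algebras -/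

/-- A tile is a pair of natural numbers. -/
abbrev Tile : Type := ℕ × ℕ

/-- A window: (lower left, lower right), (upper left, upper right). -/
abbrev Win : Type := (Tile × Tile) × (Tile × Tile)

/-- the window of `τ` at `(i, j)`; `τ i j` is the tile in row `i` and column `j` -/
def winAt (τ : ℕ → ℕ → Tile) (i j : ℕ) : Win :=
  ((τ i j, τ i (j + 1)), (τ (i + 1) j, τ (i + 1) (j + 1)))

/-- the window of a tiling of a torus -/
def winT {n m : ℕ} (T : ZMod n → ZMod m → Tile) (i : ZMod n) (j : ZMod m) : Win :=
  ((T i j, T i (j + 1)), (T (i + 1) j, T (i + 1) (j + 1)))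

/-- the zero tile -/
abbrev z0 : Tile := (0, 0)

/-- labels, coded as windows -/
def lb (k : ℕ) : Win := (((k, 0), z0), (z0, z0))

/-- The kinds of the blocks.  The sorts are `0 = M`, `1 = A₀`, `2 = A₁`, `3 = A₂`, `4 = B`, `5 = B'`.
Kind `1`: the block has the atoms `lb 0`, `lb 1` (bijections) and `lb 2` (the rest).
Kind `2`: the atoms are `lb 0` (a bijection) and `lb 2` (the rest).  Kind `3`: the atoms are the
projections of the windows.  Kind `0`: one atom. -/
def kind (i j : ℕ) : ℕ :=
  if (i = 0 ∧ 1 ≤ j ∧ j ≤ 3) ∨ (i = 4 ∧ j = 5) then 1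
  else if i = 1 ∧ (j = 2 ∨ j = 3) then 2
  else if i ≤ 3 ∧ (j = 4 ∨ j = 5) then 3
  else 0

/-- The part of a window that is seen in the block `(i, j)`: both rows if `i = 0` and only the
lower row otherwise, both columns if `j = 5` and only the left column otherwise. -/
def prj (i j : ℕ) (w : Win) : Win :=
  ((w.1.1, if j = 5 then w.1.2 else z0),
    (if i = 0 then w.2.1 else z0, if i = 0 ∧ j = 5 then w.2.2 else z0))

/-- The atoms of the block `(i, j)`. -/
def blk (Q : List Win) (i j : ℕ) : List Win :=
  if kind i j = 1 then [lb 0, lb 1, lb 2]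
  else if kind i j = 2 then [lb 0, lb 2]
  else if kind i j = 3 then Q.map (prj i j)
  else [lb 0]

/-- Atoms: a block and an element of the block. -/
abbrev Atom : Type := (ℕ × ℕ) × Win

/-- `a` is an atom of the algebra of `Q`. -/
def IsAtom (Q : List Win) (a : Atom) : Prop := a.1.1 < 6 ∧ a.1.2 < 6 ∧ a.2 ∈ blk Q a.1.1 a.1.2

/-- the type of atoms -/
abbrev At (Q : List Win) : Type := {a : Atom // IsAtom Q a}

/-- The rule for the composition of the atom `u` of the block `(i, j)` and the atom `v` of the
block `(j, k)`: the atom `w` of the block `(i, k)` is below the composition. -/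
def rule (i j k : ℕ) (u v w : Win) : Prop :=
  if kind i j = 1 ∧ kind j k = 2 then
    (if v = lb 0 then w = u else (u = lb 2 ∨ w ≠ u))
  else if kind i j = 1 ∧ kind j k = 3 then
    (if u = lb 0 then w.1 = v.1 else (u = lb 1 → w.2 = v.1))
  else if kind i j = 2 ∧ kind j k = 3 then
    (u = lb 0 → w = v)
  else if kind i j = 3 ∧ kind j k = 1 then
    (if v = lb 0 then w.1.1 = u.1.1 ∧ w.2.1 = u.2.1
      else (v = lb 1 → w.1.2 = u.1.1 ∧ w.2.2 = u.2.1))
  else True

/-- `c` is below the composition of `a` and `b`. -/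
def mul (a b c : Atom) : Prop :=
  a.1.2 = b.1.1 ∧ c.1 = (a.1.1, b.1.2) ∧ rule a.1.1 a.1.2 b.1.2 a.2 b.2 c.2

/-- Composition of sets of atoms. -/
def cmpS (Q : List Win) (S T : Set (At Q)) : Set (At Q) :=
  {c | ∃ a ∈ S, ∃ b ∈ T, mul a.1 b.1 c.1}

/-- Implication of sets of atoms. -/
def impS (Q : List Win) (S T : Set (At Q)) : Set (At Q) := Sᶜ ∪ T

/-! ## Machines with one push or pop in every step -/

/-- The instructions: push the letter `o` on the stack `k` and go to `q`; pop a letter `o` from the
stack `k` and go to `f o`; halt (accepting or not). -/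
inductive Op (K Γ Q : Type) : Type
  | push (k : K) (o : Γ) (q : Q) : Op K Γ Q
  | pop (k : K) (f : Γ → Q) : Op K Γ Q
  | halt (acc : Bool) : Op K Γ Q

/-- One step. -/
def stepM {K Γ Q : Type} [DecidableEq K] (prog : Q → Op K Γ Q) (c : Q × (K → List Γ)) :
    Option (Q × (K → List Γ)) :=
  match prog c.1 with
  | .push k o q => some (q, Function.update c.2 k (o :: c.2 k))
  | .pop k f => match c.2 k with
    | [] => none
    | o :: z => some (f o, Function.update c.2 k z)
  | .halt _ => none

/-- Reachability. -/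
def Reach {K Γ Q : Type} [DecidableEq K] (prog : Q → Op K Γ Q) :
    Q × (K → List Γ) → Q × (K → List Γ) → Prop :=
  Relation.ReflTransGen (fun a b => stepM prog a = some b)

/-! ## The tiles of a machine -/

/-- row status: a running row, the written part of the start row, the blank part of it -/
inductive St : Type
  | run : St
  | sx : St
  | sb : St

/-- Base tiles: junk, the control tile (column `0`) of a row, a cell (column `j ≥ 1`) of a row with
the `j`-th letters of the stacks. -/
inductive Base (K Γ Q : Type) : Type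
  | J : Base K Γ Q
  | ctl (s : St) (q : Q) : Base K Γ Q
  | cell (s : St) (q : Q) (l : K → Option Γ) : Base K Γ Q

variable {K Γ Q : Type}

/-- The horizontal rule: `b` may be the right neighbour of `a`. -/
def HR : Base K Γ Q → Base K Γ Q → Prop
  | .J, .J => True
  | .J, .ctl s _ => s ≠ .sb
  | .J, .cell _ _ _ => False
  | .ctl _ _, .J => False
  | .ctl _ _, .ctl _ _ => False
  | .ctl s q, .cell s' q' _ => s' = s ∧ q' = q
  | .cell _ _ _, .J => True
  | .cell _ _ _, .ctl _ _ => False
  | .cell s q _, .cell s' q' l' => q' = q ∧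
      ((s = .run ∧ s' = .run) ∨ (s = .sx ∧ s' = .sx) ∨ (s ≠ .run ∧ s' = .sb ∧ l' = fun _ => none))

/-- A tile of the start row, or junk. -/
def SJ : Base K Γ Q → Prop
  | .J => True
  | .ctl s _ => s ≠ .run
  | .cell s _ _ => s ≠ .run

/-- The vertical rule: `a b` are two neighbours in a row, and `c d` are the tiles above them. -/
def VR (prog : Q → Op K Γ Q) : Base K Γ Q → Base K Γ Q → Base K Γ Q → Base K Γ Q → Prop
  | .J, .J, c, d => SJ c ∧ SJ d
  | .J, .ctl _ _, c, d => c = .J ∧ (d = .J ∨ ∃ q', d = .ctl .run q')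
  | .J, .cell _ _ _, _, _ => False
  | .ctl _ q, b, c, d =>
      match b with
      | .cell _ _ l =>
          (match prog q with
          | .halt true => c = .J ∧ d = .J
          | .halt false => False
          | .push k o q' => ∃ m : K → Option Γ, c = .ctl .run q' ∧ d = .cell .run q' m ∧
              m k = some o
          | .pop k f => ∃ (m : K → Option Γ) (o : Γ), l k = some o ∧ c = .ctl .run (f o) ∧
              d = .cell .run (f o) m)
      | _ => False
  | .cell _ q l, b, c, d =>
      match b with
      | .ctl _ _ => False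
      | .J =>
          (match prog q with
          | .halt true => c = .J ∧ d = .J
          | .halt false => False
          | .push k _ q' => d = .J ∧ l k = none ∧ ∃ m : K → Option Γ, c = .cell .run q' m ∧
              ∀ k', k' ≠ k → m k' = l k'
          | .pop k _ => d = .J ∧ ∃ (q' : Q) (m : K → Option Γ), c = .cell .run q' m ∧
              m k = none ∧ ∀ k', k' ≠ k → m k' = l k')
      | .cell _ _ l' =>
          (match prog q with
          | .halt true => c = .J ∧ d = .J
          | .halt false => False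
          | .push k _ q' => ∃ m m' : K → Option Γ, c = .cell .run q' m ∧ d = .cell .run q' m' ∧
              m' k = l k ∧ ∀ k', k' ≠ k → m k' = l k'
          | .pop k _ => ∃ (q' : Q) (m m' : K → Option Γ), c = .cell .run q' m ∧
              d = .cell .run q' m' ∧ m k = l' k ∧ ∀ k', k' ≠ k → m k' = l k')

/-- The written part of the start row, columns `0, …, L`. -/
def srow (q0 : Q) (S0 : K → List Γ) (j : ℕ) : Base K Γ Q :=
  if j = 0 then .ctl .sx q0 else .cell .sx q0 (fun k => (S0 k)[j - 1]?)

/-- `θ` is not a tile of the written part of the start row. -/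
def NS : Base K Γ Q → Prop
  | .J => True
  | .ctl s _ => s ≠ .sx
  | .cell s _ _ => s ≠ .sx

/-- A tile `(e θ, ι)` which is allowed for the initial stacks `S0`: `ι = 0` and `θ` is not in the
written part of the start row, or `1 ≤ ι ≤ L + 1` and `θ` is the tile of column `ι - 1` of the
start row. -/
def TileOk (e : Base K Γ Q → ℕ) (q0 : Q) (S0 : K → List Γ) (L : ℕ) (t : Tile) : Prop :=
  (t.2 = 0 ∧ ∃ θ, NS θ ∧ t.1 = e θ) ∨ (1 ≤ t.2 ∧ t.2 ≤ L + 1 ∧ t.1 = e (srow q0 S0 (t.2 - 1)))

/-- The rule for the second components of two horizontal neighbours. -/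
def IdxOk (L a b : ℕ) : Prop :=
  (a = 0 ∧ b ≤ 1) ∨ (1 ≤ a ∧ a ≤ L ∧ b = a + 1) ∨ (a = L + 1 ∧ b = 0)

/-- The allowed windows of the machine `prog` with initial state `q0` and initial stacks `S0`. -/
def OkW (prog : Q → Op K Γ Q) (e : Base K Γ Q → ℕ) (q0 : Q) (S0 : K → List Γ) (L : ℕ)
    (w : Win) : Prop :=
  (∃ a b c d : Base K Γ Q, w.1.1.1 = e a ∧ w.1.2.1 = e b ∧ w.2.1.1 = e c ∧ w.2.2.1 = e d ∧
    HR a b ∧ HR c d ∧ VR prog a b c d) ∧
  TileOk e q0 S0 L w.1.1 ∧ TileOk e q0 S0 L w.1.2 ∧ TileOk e q0 S0 L w.2.1 ∧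
  TileOk e q0 S0 L w.2.2 ∧ IdxOk L w.1.1.2 w.1.2.2

/-- The seed. -/
def seed (e : Base K Γ Q → ℕ) (q0 : Q) : Tile := (e (.ctl .sx q0), 1)

/-! ## Additions for the pieces -/

/-- The facts about a representation `h` of the algebra of sets of atoms (piece `QA`). -/
structure Facts (Q : List Win) {X : Type u} [PartialOrder X] (h : Set (At Q) → X → X → Prop) :
    Prop where
  weak : ∀ S, IsWeakening (h S)
  comp : ∀ S T x z, h (cmpS Q S T) x z ↔ ∃ y, h S x y ∧ h T y z
  top : ∀ x y, h Set.univ x y
  bot : ∀ x y, ¬ h ∅ x y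
  mono : ∀ S T, S ⊆ T → ∀ x y, h S x y → h T x y
  inter : ∀ S T x y, h S x y → h T x y → h (S ∩ T) x y
  compl : ∀ S x y, ¬ h S x y → ∃ x' y', x' ≤ x ∧ y ≤ y' ∧ h Sᶜ x' y'
  ne : ∀ S : Set (At Q), S.Nonempty → ∃ x y, h S x y

/-- the block `(i, j)` as a set of atoms -/
def bk (Q : List Win) (i j : ℕ) : Set (At Q) := {c | c.1.1 = (i, j)}

/-- the set of the one atom `((i, j), u)` (empty if it is not an atom) -/
def sg (Q : List Win) (i j : ℕ) (u : Win) : Set (At Q) := {c | c.1 = ((i, j), u)}

/-- the sort function (piece `QS`) -/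
def Sorts (Q : List Win) {X : Type u} (h : Set (At Q) → X → X → Prop) (σ : X → ℕ) : Prop :=
  (∀ x, σ x < 6) ∧ ∀ x y, h (bk Q (σ x) (σ y)) x y

/-- the tile `t` as an atom of the blocks `(1, 4)`, `(2, 4)`, `(3, 4)` -/
def tl (t : Tile) : Win := ((t, z0), (z0, z0))

/-- the base of the finite representation -/
abbrev Yt (n m : ℕ) : Type := ZMod n × ZMod m × ZMod 5

/-- the row shift -/
def ea (n m : ℕ) : Yt n m := (1, 0, 1)

/-- the column shift -/
def eb (n m : ℕ) : Yt n m := (0, 1, 1)

/-- The atom of the pair `(y, y')` in the block `(i, j)`. -/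
def kap {n m : ℕ} (T : ZMod n → ZMod m → Tile) (i j : ℕ) (y y' : Yt n m) : Win :=
  if kind i j = 1 then
    (if i = 0 then (if y' = y then lb 0 else if y' = y + ea n m then lb 1 else lb 2)
      else (if y' = y then lb 0 else if y = y' + eb n m then lb 1 else lb 2))
  else if kind i j = 2 then (if y' = y then lb 0 else lb 2)
  else if kind i j = 3 then prj i j (winT T (y.1 + y'.1) (y.2.1 + y'.2.1))
  else lb 0

/-- removing duplicates -/
def dd (l : List Atom) : List Atom := l.foldr (fun a acc => if a ∈ acc then acc else a :: acc) []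

/-- the list of the atoms -/
def atoms (Q : List Win) : List Atom :=
  dd ((List.range 6).flatMap fun i => (List.range 6).flatMap fun j =>
    (blk Q i j).map fun w => ((i, j), w))

/-- all sublists of the list of the atoms -/
def subs (Q : List Win) : List (List Atom) := (atoms Q).sublists'

open Classical in
/-- composition of lists of atoms -/
noncomputable def cmpL (Q : List Win) (S T : List Atom) : List Atom :=
  (atoms Q).filter fun c => decide (∃ a ∈ S, ∃ b ∈ T, mul a b c)

open Classical in
/-- implication of lists of atoms -/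
noncomputable def impL (Q : List Win) (S T : List Atom) : List Atom :=
  (atoms Q).filter fun c => decide (c ∈ S → c ∈ T)

/-- the table of an operation -/
def tbl (Q : List Win) (f : List Atom → List Atom → List Atom) : List ℕ :=
  (List.range ((subs Q).length * (subs Q).length)).map fun t =>
    (subs Q).findIdx fun s => decide (s = f ((subs Q).getD (t / (subs Q).length) [])
      ((subs Q).getD (t % (subs Q).length) []))

/-- the code of the algebra of `Q` -/
noncomputable def code (Q : List Win) : Code :=
  ((subs Q).length - 1, (tbl Q (cmpL Q), tbl Q (impL Q)))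

/-- The row `θ` is the configuration `c`: either all cells are there, or there is junk after the
cell `w` and the stacks are not longer than `w`. -/
def RowOk (θ : ℕ → Base K Γ Q) (c : Q × (K → List Γ)) : Prop :=
  (∃ s, θ 0 = .ctl s c.1) ∧
  ((∀ j, 1 ≤ j → ∃ s, θ j = .cell s c.1 (fun k => (c.2 k)[j - 1]?)) ∨
    ∃ w, 1 ≤ w ∧ (∀ j, 1 ≤ j → j ≤ w → ∃ s, θ j = .cell s c.1 (fun k => (c.2 k)[j - 1]?)) ∧
      θ (w + 1) = .J ∧ ∀ k, (c.2 k).length ≤ w)

/-- The row with junk after the cell `w`. -/
def IsRow (w : ℕ) (θ : ℕ → Base K Γ Q) (c : Q × (K → List Γ)) : Prop :=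
  (∃ s, θ 0 = .ctl s c.1) ∧
  (∀ j, 1 ≤ j → j ≤ w → ∃ s, θ j = .cell s c.1 (fun k => (c.2 k)[j - 1]?)) ∧
  (∀ j, w < j → θ j = .J)

/-- the running row of `c` of width `w` -/
def rrow (w : ℕ) (c : Q × (K → List Γ)) (j : ℕ) : Base K Γ Q :=
  if j = 0 then .ctl .run c.1
  else if j ≤ w then .cell .run c.1 (fun k => (c.2 k)[j - 1]?) else .J

/-- the start row of `(q0, S0)` of width `w` with written part of width `L` -/
def zrow (w L : ℕ) (q0 : Q) (S0 : K → List Γ) (j : ℕ) : Base K Γ Q :=
  if j ≤ L then srow q0 S0 j
  else if j ≤ w then .cell .sb q0 (fun _ => none) else .J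

end Pool.Agent.Run7.h638.WR
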