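import Pool.Agent.Run7.h638.WR.Iface

/-!
# Piece FIN of the project WR (MP_5885b3_lc): the assembly
-/

set_option autoImplicit false

universe u

namespace Pool.Agent.Run7.h638.WR

open Turing Turing.PartrecToTM2

theorem finRep_rep {A : Type} {comp imp : A → A → A} (h : FinRep.{u} comp imp) :
    Rep.{u} comp imp := by
  obtain ⟨X, i, h, _, hr⟩ := h
  exact ⟨X, i, h, hr⟩

theorem finRep_lift {A : Type} {comp imp : A → A → A} (h : FinRep.{0} comp imp) :
    FinRep.{u} comp imp := by
  obtain ⟨X, i, h, hf, hr⟩ := h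
  let po : PartialOrder (ULift.{u} X) :=
    PartialOrder.lift ULift.down ULift.down_injective
  refine ⟨ULift.{u} X, po, fun a x y => h a x.down y.down, inferInstance, ?_, ?_, ?_, ?_⟩
  · intro a b hab
    refine hr.inj ?_
    funext x y
    have := congrFun (congrFun hab ⟨x⟩) ⟨y⟩
    exact this
  · intro a x' x y y' h1 h2 h3
    exact hr.weak a x'.down x.down y.down y'.down h1 h2 h3
  · intro a b
    funext x z
    have := congrFun (congrFun (hr.comp a b) x.down) z.down
    show h (comp a b) x.down z.down = _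
    rw [this]
    apply propext
    constructor
    · rintro ⟨y, h1, h2⟩
      exact ⟨⟨y⟩, h1, h2⟩
    · rintro ⟨y, h1, h2⟩
      exact ⟨y.down, h1, h2⟩
  · intro a b
    funext x y
    have := congrFun (congrFun (hr.imp a b) x.down) y.down
    show h (imp a b) x.down y.down = _
    rw [this]
    apply propext
    constructor
    · intro h1 x' y' h2 h3 h4
      exact h1 x'.down y'.down h2 h3 h4
    · intro h1 x' y' h2 h3 h4
      exact h1 ⟨x'⟩ ⟨y'⟩ h2 h3 h4

theorem op_surj (n : ℕ) (f : Fin (n + 1) → Fin (n + 1) → Fin (n + 1)) : ∃ l, op n l = f := by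
  refine ⟨(List.range ((n + 1) * (n + 1))).map fun t =>
    (f (Fin.ofNat (n + 1) (t / (n + 1))) (Fin.ofNat (n + 1) (t % (n + 1)))).val, ?_⟩
  funext i j
  have hi := i.isLt
  have hj := j.isLt
  have hlt : i.val * (n + 1) + j.val < (n + 1) * (n + 1) := by nlinarith
  have h1 : (i.val * (n + 1) + j.val) / (n + 1) = i.val := by
    rw [mul_comm, Nat.mul_add_div (Nat.succ_pos n), Nat.div_eq_of_lt hj, add_zero]
  have h2 : (i.val * (n + 1) + j.val) % (n + 1) = j.val := by
    rw [mul_comm, Nat.mul_add_mod, Nat.mod_eq_of_lt hj]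
  have h3 : Fin.ofNat (n + 1) i.val = i := Fin.ext (Nat.mod_eq_of_lt hi)
  have h4 : Fin.ofNat (n + 1) j.val = j := Fin.ext (Nat.mod_eq_of_lt hj)
  unfold op
  rw [List.getD_eq_getElem?_getD, List.getElem?_map, List.getElem?_range hlt]
  simp only [Option.map_some, Option.getD_some, h1, h2, h3, h4]
  exact Fin.ext (Nat.mod_eq_of_lt (f i j).isLt)

/-- The core: a computable predicate between finite representability and representability. -/
theorem core (quad : QUAD.{u}) (rep : REP) (c3 : C3) (hc : Computable code)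
    (no : NO) (yes : YES) (simp' : SIMP) (okc : OKC) (srch : SRCH)
    (D : Code → Prop) (hD : ComputablePred D)
    (h1 : ∀ Q : List Win, FinRep.{0} (cmpS Q) (impS Q) → D (code Q))
    (h2 : ∀ Q : List Win, D (code Q) → Rep.{u} (cmpS Q) (impS Q)) : False := by
  obtain ⟨Q, hQ, prog, q0, ha, hb⟩ := simp'
  obtain ⟨e, L, ok, he, hL, hlen, hok, hmem⟩ := okc Q hQ prog q0
  obtain ⟨f, hf, hfi⟩ := srch c3 ok code (seed e q0) D hok hc hD
  refine Pool.Agent.H662R2.SM.insep f hf ?_ ?_
  · intro n hn
    rw [hfi]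
    have fin : Finite K' := by
      refine Finite.of_injective (β := Fin 4)
        (fun k => match k with
          | .main => 0
          | .rev => 1
          | .aux => 2
          | .stack => 3) ?_
      intro a b
      cases a <;> cases b <;> simp
    obtain ⟨n', m', i1, i2, T, hT0, hT⟩ :=
      yes K' (Option Γ') Q inferInstance fin prog e q0 _ (L n) (hL n) (hlen n) (ha n hn)
    classical
    refine ⟨(ok n).filter (fun w => decide (∃ i j, winT T i j = w)), List.filter_sublist, ?_, ?_⟩
    · refine ⟨winT T 0 0, ?_, ?_⟩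
      · rw [List.mem_filter, hmem]
        exact ⟨hT 0 0, by simp⟩
      · exact hT0
    · refine h1 _ (rep n' m' i1 i2 T _ ?_)
      intro w
      rw [List.mem_filter, hmem]
      constructor
      · rintro ⟨_, h⟩
        simpa using h
      · rintro ⟨i, j, rfl⟩
        exact ⟨hT i j, by simp⟩
  · intro n hn
    by_contra hne
    have hfn : f n = true := by
      cases h : f n
      · exact absurd h hne
      · rfl
    rw [hfi] at hfn
    obtain ⟨W, hsub, hs, hW⟩ := hfn
    obtain ⟨τ, hτ0, hτ⟩ := quad W (seed e q0) hs (h2 W hW)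
    refine no K' (Option Γ') Q inferInstance prog e q0 _ (L n) he (hL n) (hlen n) (hb n hn) τ hτ0 ?_
    intro i j
    rw [← hmem]
    exact hsub.subset (hτ i j)

theorem t_FIN : FIN.{u} := by
  intro quad rep c1 c3 hc c5 no yes simp' okc srch
  refine ⟨?_, ?_, op_surj⟩
  · intro hD
    refine core.{u} quad rep c3 hc no yes simp' okc srch RepCode.{u} hD ?_ ?_
    · intro Q hQ
      exact ((c5 c1 Q).1).2 (finRep_rep (finRep_lift hQ))
    · intro Q hQ
      exact ((c5 c1 Q).1).1 hQ
  · intro hD
    refine core.{u} quad rep c3 hc no yes simp' okc srch FinRepCode.{u} hD ?_ ?_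
    · intro Q hQ
      exact ((c5 c1 Q).2).2 (finRep_lift hQ)
    · intro Q hQ
      exact finRep_rep (((c5 c1 Q).2).1 hQ)

end Pool.Agent.Run7.h638.WR
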