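import Pool.Agent.Run7.h638.WR.Defs
import Pool.Agent.H662R2.SM

/-!
# Pieces of the project WR (MP_5885b3_lc, Q1): undecidability of representability by weakening
relations.  Every piece is a closed Prop `X`; prove `theorem t_X : X` in
`Pool/Agent/Run7/<you>/WR/X.lean` (imports: this file).  The proofs are in the doc strings.

Proofs of one piece may use the definitions only (the other pieces appear as hypotheses when they
are needed).
-/

set_option autoImplicit false

universe u

namespace Pool.Agent.Run7.h638.WR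

open Turing Turing.PartrecToTM2

/-! ## From a representation to a tiling of the quadrant -/

/-- Write `I S T` for `impS Q S T = Sᶜ ∪ T`.
`weak`, `comp`: from `IsRep` (apply the equation of functions `h (cmpS Q S T) = relComp (h S) (h T)`).
`top`: `I S S = univ` and `relImp (h S) (h S)` is everywhere true.
`bot`: `cmpS Q univ (cmpS Q ∅ univ) = ∅`.  If `h ∅ x y`, then for all `a b`:
`h univ a x`, `h ∅ x y`, `h univ y b` give `h (cmpS Q univ (cmpS Q ∅ univ)) a b = h ∅ a b`; so `h ∅`
and `h univ` are both everywhere true, `∅ = univ` by injectivity, but `((0, 0), lb 0)` is an atom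
(`kind 0 0 = 0`).  Contradiction.
`mono`: if `S ⊆ T` then `I S T = univ`, so `relImp (h S) (h T) x y` by `top`; take `x' = x, y' = y`.
`inter`: `T ⊆ I S (S ∩ T)`, so `h T x y` gives `relImp (h S) (h (S ∩ T)) x y`; take `x' = x, y' = y`.
`compl`: `S = I Sᶜ ∅`, so `h S x y ↔ ∀ x' ≤ x, ∀ y' ≥ y, h Sᶜ x' y' → h ∅ x' y'`; use `bot`.
`ne`: otherwise `h S = h ∅` (both everywhere false) and `S = ∅`. -/
def QA : Prop := ∀ (Q : List Win) (X : Type u) (_ : PartialOrder X) (h : Set (At Q) → X → X → Prop),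
  IsRep (cmpS Q) (impS Q) h → Facts Q h

/-- Let `b i j = bk Q i j`, `E = ⋃ i, b i i`, `r i` = the atoms `c` with `c.1.1.1 = i`, `k j` = the
atoms with `c.1.1.2 = j`.  By the definition of `mul` (`kind i i = 0`, so every rule with two equal
consecutive indices is `True`; the only atom of `b i i` is `lb 0`):
(a) `univ ⊆ cmpS Q E univ` (take `a = ((i,i), lb 0)`, `b = c`), (b) `cmpS Q Eᶜ E ⊆ Eᶜ`,
(c) `cmpS Q (r i) univ ⊆ r i`, more generally `cmpS Q R univ ⊆ R` for a union `R` of `r i`'s,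
(d) `cmpS Q univ (k j) ⊆ k j`.
Step 1: `h E x x` for every `x`.  Otherwise (`compl`) there are `x' ≤ x ≤ x''` with `h Eᶜ x' x''`.
By `top` and (a) there is `y` with `h E x'' y`.  Then `h (cmpS Q Eᶜ E) x' y`, so `h Eᶜ x' y`; and
`x' ≤ x''` gives `h E x' y` (`weak`); so `h (E ∩ Eᶜ) x' y`, contradiction to `bot`.
Step 2: for every `x` there are `i < 6` and `x' ≤ x ≤ x''` with `h (b i i) x' x''`.
(Induction: for `n ≤ 6`, either this holds for some `i < n`, or there are `x' ≤ x ≤ x''` with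
`h (E ∩ {c | n ≤ c.1.1.1}) x' x''`: given such a pair for `n`, either `h (b n n) x' x''` or, by `compl`,
a further extension is in `h (b n n)ᶜ`, and by `weak` and `inter` in the set for `n + 1`.  For `n = 6`
the set is empty.)
Step 3: then `h (b i i) x x`.  Otherwise there are `y' ≤ x ≤ y''` with `h (b i i)ᶜ y' y''`, and also
`h E y' y''` by step 1 and `weak`, so `h (E ∩ (b i i)ᶜ) y' y''`.  Now look at `(y', x'')`: `h E y' x''`
(`weak` from `h E x x`); `h (k i) y' x''` by (d), since `h univ y' x'` and `h (k i) x' x''`;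
and `h R y' x''` with `R = {c | c.1.1.1 ≠ i}` by (c), since `h R y' y''` and `h univ y'' x''`.
But `E ∩ k i ∩ R = ∅`.
Step 4: let `σ x` be such an `i`.  For `x, y`: `h (r (σ x)) x y` by (c) from `h (r (σ x)) x x` and
`h univ x y`; `h (k (σ y)) x y` by (d); and `r i ∩ k j = b i j`. -/
def QS : Prop := ∀ (Q : List Win) (X : Type u) (_ : PartialOrder X) (h : Set (At Q) → X → X → Prop),
  Facts Q h → ∃ σ : X → ℕ, Sorts Q h σ

/-- Remark (U): if `h S x y`, then `h (S ∩ bk Q (σ x) (σ y)) x y`; in particular this set is not empty,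
so if `S ⊆ bk Q i j` then `σ x = i` and `σ y = j`.
Claim: for every tile `t`: `h (sg Q 1 4 (tl t)) x y` or `h (bk Q 1 4 \ sg Q 1 4 (tl t)) x y`.
Proof: let `S = sg Q 1 2 (lb 0) ∪ sg Q 1 3 (lb 0)` and
`T = sg Q 2 4 (tl t) ∪ (bk Q 3 4 \ sg Q 3 4 (tl t))`.  Then `bk Q 1 4 ⊆ cmpS Q S T`: for
`c = ((1,4), w)` use `((1,2), lb 0), ((2,4), w)` if `w = tl t`, and `((1,3), lb 0), ((3,4), w)`
otherwise (the rule of `kind 1 2 = 2`, `kind 2 4 = 3` is `u = lb 0 → w = v`; `blk Q 1 4`, `blk Q 2 4`,
`blk Q 3 4` are the same list).  So there is `z` with `h S x z` and `h T z y`.  By (U),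
`S ∩ bk Q 1 (σ z)` is not empty, so `σ z = 2` or `3`.  If `σ z = 2`: `h (sg Q 1 2 (lb 0)) x z` and
`h (sg Q 2 4 (tl t)) z y` (by (U) and `mono`), so `h (cmpS Q _ _) x y`, and this set is contained in
`sg Q 1 4 (tl t)`.  If `σ z = 3`: `h (sg Q 1 3 (lb 0)) x z`, `h (bk Q 3 4 \ sg Q 3 4 (tl t)) z y`, and
the composition is contained in `bk Q 1 4 \ sg Q 1 4 (tl t)`.
Conclusion: if the first alternative fails for all `t`, then by induction on a list `l` of tiles
(`inter`), `h {c ∈ bk Q 1 4 | ∀ t ∈ l, c.1.2 ≠ tl t} x y`; for `l = Q.map (fun w => w.1.1)` the set is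
empty (the atoms of the block are `prj 1 4 w = tl w.1.1`, `w ∈ Q`), contradiction to `bot`. -/
def QD : Prop := ∀ (Q : List Win) (X : Type u) (_ : PartialOrder X) (h : Set (At Q) → X → X → Prop),
  Facts Q h → ∀ σ : X → ℕ, Sorts Q h σ → ∀ x y, σ x = 1 → σ y = 4 →
    ∃ t : Tile, h (sg Q 1 4 (tl t)) x y

/-- Remark (U) as in `QD`.  There is an element `m` of sort `0` (`ne` for `bk Q 0 0`, which contains
`((0,0), lb 0)`, and (U)).
Step: given `x` with `σ x = 1` there is `x'` with `σ x' = 0` and `h (sg Q 0 1 (lb 0)) x' x`: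
`h (bk Q 0 1) m x` (`Sorts`) and `bk Q 0 1 ⊆ cmpS Q (bk Q 0 0) (sg Q 0 1 (lb 0))` (the rule is `True`,
`kind 0 0 = 0`).  And given `x'` with `σ x' = 0` and some `x` of sort `1` there is `x''` with
`h (sg Q 0 1 (lb 1)) x' x''`: `h (bk Q 0 1) x' x` and
`bk Q 0 1 ⊆ cmpS Q (sg Q 0 1 (lb 1)) (bk Q 1 1)` (`kind 1 1 = 0`); `σ x'' = 1` by (U).
Iterate (dependent choice: a function `x ↦ (x', x'')` on the elements of sort `1`). -/
def QP : Prop := ∀ (Q : List Win) (X : Type u) (_ : PartialOrder X) (h : Set (At Q) → X → X → Prop),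
  Facts Q h → ∀ σ : X → ℕ, Sorts Q h σ → ∀ x, σ x = 1 →
    ∃ p p' : ℕ → X, p 0 = x ∧ ∀ i, σ (p i) = 1 ∧ h (sg Q 0 1 (lb 0)) (p' i) (p i) ∧
      h (sg Q 0 1 (lb 1)) (p' i) (p (i + 1))

/-- As `QP`.  There is an element `m` of sort `5`.  Given `y` with `σ y = 4` there is `y'` with
`h (sg Q 4 5 (lb 0)) y y'`: `h (bk Q 4 5) y m` and `bk Q 4 5 ⊆ cmpS Q (sg Q 4 5 (lb 0)) (bk Q 5 5)`
(`kind 5 5 = 0`, the rule is `True`); `σ y' = 5`.  And given `y'` of sort `5` and some `y` of sort `4`
there is `y''` of sort `4` with `h (sg Q 4 5 (lb 1)) y'' y'`: `h (bk Q 4 5) y y'` and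
`bk Q 4 5 ⊆ cmpS Q (bk Q 4 4) (sg Q 4 5 (lb 1))` (`kind 4 4 = 0`).  Iterate. -/
def QQ : Prop := ∀ (Q : List Win) (X : Type u) (_ : PartialOrder X) (h : Set (At Q) → X → X → Prop),
  Facts Q h → ∀ σ : X → ℕ, Sorts Q h σ → ∀ y, σ y = 4 →
    ∃ q q' : ℕ → X, q 0 = y ∧ ∀ j, σ (q j) = 4 ∧ h (sg Q 4 5 (lb 0)) (q j) (q' j) ∧
      h (sg Q 4 5 (lb 1)) (q (j + 1)) (q' j)

/-- `(x0, y0)` is in `h` of each of the following four sets, hence (`inter`) of their intersection,
which is not empty (`bot`); an atom `((0, 5), prj 0 5 w)`, `w ∈ Q`, of it gives the claim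
(`prj 0 5 w = w`).
(1) `{c ∈ b 0 5 | c.1.2.1.1 = t11}`: `h (sg 0 1 (lb 0)) x0 x1`, `h (sg 1 4 (tl t11)) x1 y1` give
`h {c ∈ b 0 4 | c.1.2.1 = (t11, z0)} x0 y1` (rule `kind 0 1 = 1`, `kind 1 4 = 3`, `u = lb 0`:
`w.1 = v.1`); with `h (sg 4 5 (lb 0)) y1 y0` (rule `kind 0 4 = 3`, `kind 4 5 = 1`, `v = lb 0`:
`w.1.1 = u.1.1`) we get `(x0, y0)`.
(2) `{c ∈ b 0 5 | c.1.2.2.1 = t21}`: `h (sg 0 1 (lb 1)) x0 x2`, `h (sg 1 4 (tl t21)) x2 y1` give
`h {c ∈ b 0 4 | c.1.2.2 = (t21, z0)} x0 y1` (`w.2 = v.1`); then `v = lb 0` gives `w.2.1 = u.2.1`.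
(3) `{c ∈ b 0 5 | c.1.2.1.2 = t12}`: `x0, x1, y2` give `h {c ∈ b 0 4 | c.1.2.1 = (t12, z0)} x0 y2`;
with `h (sg 4 5 (lb 1)) y2 y0` (`v = lb 1`: `w.1.2 = u.1.1`).
(4) `{c ∈ b 0 5 | c.1.2.2.2 = t22}`: `x0, x2, y2`, then `w.2.2 = u.2.1`. -/
def QW : Prop := ∀ (Q : List Win) (X : Type u) (_ : PartialOrder X) (h : Set (At Q) → X → X → Prop),
  Facts Q h → ∀ (x0 x1 x2 y0 y1 y2 : X) (t11 t12 t21 t22 : Tile),
    h (sg Q 0 1 (lb 0)) x0 x1 → h (sg Q 0 1 (lb 1)) x0 x2 →
    h (sg Q 4 5 (lb 0)) y1 y0 → h (sg Q 4 5 (lb 1)) y2 y0 →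
    h (sg Q 1 4 (tl t11)) x1 y1 → h (sg Q 1 4 (tl t12)) x1 y2 →
    h (sg Q 1 4 (tl t21)) x2 y1 → h (sg Q 1 4 (tl t22)) x2 y2 →
    ((t11, t12), (t21, t22)) ∈ Q

/-- A representation gives a tiling of the quadrant.  From the pieces `QA`, `QS`, `QD`, `QP`, `QQ`,
`QW`: take `h` and `σ`.  `sg Q 1 4 (tl s)` is not empty (`prj 1 4 w = tl w.1.1`), so `ne` gives `x, y`
with `h (sg Q 1 4 (tl s)) x y`, and `σ x = 1`, `σ y = 4` by remark (U) of `QD`.  Take `p, p'` from `QP`
and `q, q'` from `QQ`.  By `QD` choose `τ i j` with `h (sg Q 1 4 (tl (τ i j))) (p i) (q j)`, and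
`τ 0 0 = s`: two tiles `t, t'` with `h (sg Q 1 4 (tl t)) a b`, `h (sg Q 1 4 (tl t')) a b` are equal
(`inter`, `bot`).  `QW` with `x0 = p' i`, `x1 = p i`, `x2 = p (i+1)`, `y0 = q' j`, `y1 = q j`,
`y2 = q (j+1)` gives `winAt τ i j ∈ Q`. -/
def QUAD : Prop := ∀ (Q : List Win) (s : Tile), (∃ w ∈ Q, w.1.1 = s) → Rep.{u} (cmpS Q) (impS Q) →
  ∃ τ : ℕ → ℕ → Tile, τ 0 0 = s ∧ ∀ i j, winAt τ i j ∈ Q

/-- Assembly, see `QUAD`. -/
def QF : Prop := QA.{u} → QS.{u} → QD.{u} → QP.{u} → QQ.{u} → QW.{u} → QUAD.{u}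

/-! ## From a tiling of a torus to a finite representation -/

/-- Membership, richness on the right and on the left.  Cases on `kind i j` (unfold `kap`, `blk`; for
`kind 3` only the positions matter: for `u = prj i j w'`, `w' = winT T a b`, take
`y' = (a - y.1, b - y.2.1, 0)`; for `kind 1`, `i = 0`: `y' = y`, `y + ea`, `y + (0, 0, 2)`, and
`y + ea ≠ y` because the third components differ in `ZMod 5`; `kind 1`, `i = 4` similar). -/
def RR : Prop := ∀ (n m : ℕ) (_ : NeZero n) (_ : NeZero m) (T : ZMod n → ZMod m → Tile)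
  (Q : List Win), (∀ w, w ∈ Q ↔ ∃ i j, winT T i j = w) → ∀ i j, i < 6 → j < 6 →
    (∀ y y' : Yt n m, kap T i j y y' ∈ blk Q i j) ∧
    (∀ u ∈ blk Q i j, ∀ y : Yt n m, ∃ y', kap T i j y y' = u) ∧
    (∀ u ∈ blk Q i j, ∀ y' : Yt n m, ∃ y, kap T i j y y' = u)

/-- Composition is exact in the four cases in which the rule is not `True`.  Write
`W = winT T (y.1 + y''.1) (y.2.1 + y''.2.1)`.
(1) `kind i j = 1`, `kind j k = 2` (so `i = 0`, `j = 1`, `k = 2` or `3`; `kap T 0 2 = kap T 0 3 = kap T 0 1`):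
`v = lb 0`: `y' = y''` is forced.  `v = lb 2`: `y' ≠ y''`; for `u = lb 0` (`y' = y`) and `u = lb 1`
(`y' = y + ea`) the element `y'` is determined and `y' ≠ y''` means `w ≠ u`; for `u = lb 2` there is a `y'`
different from `y`, `y + ea`, `y''` (choose the third component, there are five values).
(2) `kind i j = 1`, `kind j k = 3` (`i = 0`, `j = 1, 2, 3`, `k = 4, 5`).  `u = lb 0`: `y' = y`,
`kap T j k y y'' = prj j k W`, whose first component is `(prj 0 k W).1` and whose second component is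
`(z0, z0)`, as for every `v` in `blk Q j k`.  `u = lb 1`: `y' = y + ea`, the window at
`y + ea + y''` has the lower row `W.2`.  `u = lb 2`: choose the first two components of `y'` such that
`prj j k` of the window at `y' + y''` is `v`, and the third component `y.2.2 + 2`.
(3) `kind i j = 2`, `kind j k = 3` (`i = 1`, `j = 2, 3`, `k = 4, 5`): `u = lb 0`: `y' = y` and
`kap T j k = kap T i k` because `prj j k = prj i k`; `u = lb 2`: any, with third component `y.2.2 + 1`.
(4) `kind i j = 3`, `kind j k = 1` (`i ≤ 3`, `j = 4`, `k = 5`): `v = lb 0`: `y' = y''`,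
`kap T i 4 y y'' = prj i 4 W` has the components `W.1.1` and `W.2.1` (the latter only if `i = 0`) of
`prj i 5 W`; `v = lb 1`: `y' = y'' + eb`, the window at `y + y'' + eb` has the left column
`(W.1.2, W.2.2)`; `v = lb 2`: choose the third component `y''.2.2 + 2`. -/
def RK : Prop := ∀ (n m : ℕ) (_ : NeZero n) (_ : NeZero m) (T : ZMod n → ZMod m → Tile)
  (Q : List Win), (∀ w, w ∈ Q ↔ ∃ i j, winT T i j = w) → ∀ i j k, i < 6 → j < 6 → k < 6 →
    kind i j ≠ 0 → kind j k ≠ 0 → ∀ u ∈ blk Q i j, ∀ v ∈ blk Q j k, ∀ y y'' : Yt n m,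
    ((∃ y', kap T i j y y' = u ∧ kap T j k y' y'' = v) ↔ rule i j k u v (kap T i k y y''))

/-- A tiling of a torus gives a finite representation. -/
def REP : Prop := ∀ (n m : ℕ) (_ : NeZero n) (_ : NeZero m) (T : ZMod n → ZMod m → Tile)
  (Q : List Win), (∀ w, w ∈ Q ↔ ∃ i j, winT T i j = w) → FinRep.{0} (cmpS Q) (impS Q)

/-- Assembly of `REP`.  `X = Fin 6 × Yt n m` with the DISCRETE order (`x ≤ y ↔ x = y`; give it as an
explicit instance, or use a structure wrapper for `X`), `h S (i, y) (j, y')` := there is `c ∈ S` with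
`c.1 = ((i, j), kap T i j y y')`.  `inj`: every atom `((i, j), u)` is `((i, j), kap T i j y y')` for some
`y, y'` (`RR`).  `weak`: trivial.  `imp`: `relImp R S x y ↔ (R x y → S x y)`, and for every pair there is
exactly one atom `c` (it exists by `RR`), so `h` commutes with complement and union.
`comp`: `h (cmpS Q S S') (i, y) (k, y'')` iff there are `a ∈ S`, `b ∈ S'` with `a.1 = ((i, j), u)`,
`b.1 = ((j, k), v)` and `rule i j k u v (kap T i k y y'')`; by `RK` if `kind i j ≠ 0` and `kind j k ≠ 0`,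
this is the same as: there is `y'` with `kap T i j y y' = u`, `kap T j k y' y'' = v`.  If `kind i j = 0` or
`kind j k = 0` then the rule is `True` (the two kinds would have to be different from `0` in every
case), and the `y'` exists by richness (the atom of a block of kind `0` is `lb 0 = kap`, no
condition). -/
def RF : Prop := RR → RK → REP

/-! ## The code of the algebra -/

/-- `dd l` has no duplicates and the same members as `l`; then unfold `IsAtom`.  For `Primrec`: lists of
pairs, `blk Q i j` for the 36 constants `i, j < 6` (`Q.map (prj i j)` with `Primrec.list_map`), append;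
`dd` with `Primrec.list_foldr` and the membership test (for instance by `List.findIdx` or
`List.idxOf`). -/
def C1 : Prop := (∀ Q, (atoms Q).Nodup ∧ ∀ a, a ∈ atoms Q ↔ IsAtom Q a) ∧ Primrec atoms

/-- The rule is a Boolean combination of equalities of components; `kind` is a case distinction with
comparisons of natural numbers. -/
def C2 : Prop := PrimrecPred (fun t : Atom × (Atom × Atom) => mul t.1 t.2.1 t.2.2)

/-- `sublists' (a :: l) = sublists' l ++ (sublists' l).map (cons a)`; `Primrec.list_foldr` or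
`Primrec.list_rec`. -/
def C3 : Prop := ∀ (α : Type) (_ : Primcodable α), Primrec (List.sublists' : List α → List (List α))

/-- The code is computable: bounded quantifiers over lists, filter, map, `List.findIdx`, `List.range`,
division. -/
def C4 : Prop := C1 → C2 → C3 → Computable code

/-- Let `N = (subs Q).length` (positive) and `n = N - 1`.  The map `φ : Fin (n + 1) → Set (At Q)`,
`φ i = {c | c.1 ∈ (subs Q).getD i []}` is a bijection: the sublists of the list `atoms Q` (without
duplicates) are in bijection with the sets of atoms (`S ↦ (atoms Q).filter (· ∈ S)`; a sublist of a list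
without duplicates is determined by its members), and `subs Q` has no duplicates
(`List.nodup_sublists'`).  The entry of the table at `i * (n + 1) + j` is the index of
`cmpL Q (subs Q)[i] (subs Q)[j]`, which is in `subs Q` (a filter of `atoms Q`), so
`φ (op n c i j) = cmpS Q (φ i) (φ j)`, and the same for `impL`, `impS`.  Hence representations `h` of one
algebra and `h ∘ φ`, `h ∘ φ⁻¹` of the other correspond to each other. -/
def C5 : Prop := C1 → ∀ Q : List Win,
  (RepCode.{u} (code Q) ↔ Rep.{u} (cmpS Q) (impS Q)) ∧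
  (FinRepCode.{u} (code Q) ↔ FinRep.{u} (cmpS Q) (impS Q))

/-! ## Tilings of the quadrant and machines that do not accept -/

/-- Choose `θ i j` with `(τ i j).1 = e (θ i j)` (from the windows; `e` is injective, so `θ i j` is
unique and `HR`, `VR` transfer to `θ`).  Row `0`: `θ 0 0 = ctl sx q0` and `(τ 0 0).2 = 1`.  By induction
on `j ≤ L`, `(τ 0 j).2 = j + 1` (`IdxOk`) and so `θ 0 j = srow q0 S0 j` (`TileOk`: the first alternative
has second component `0`); and `(τ 0 (L + 1)).2 = 0`.  From then on, by induction on `j ≥ L + 1`, as long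
as no `J` has occurred: the second component of `τ 0 j` is `0`, `θ 0 j = cell sb q0 (none)`: the tile
`θ 0 j` satisfies `NS`, its left neighbour is `cell sx q0 _` or `cell sb q0 _`, so by `HR` it is `J` or
`cell sb q0 (fun _ => none)`; the next second component is `0` or `1`, and `1` is impossible because it
means `θ = srow q0 S0 0 = ctl sx q0`, which is not allowed by `HR` to the right of a cell.  If some
`θ 0 j`, `j ≥ L + 1`, is `J`, take the first one and `w = j - 1 ≥ L` (second alternative of `RowOk`);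
otherwise the first alternative.  For `j > L` the letters `(S0 k)[j - 1]?` are `none` because the
stacks are not longer than `L`. -/
def N1 : Prop := ∀ (K Γ Q : Type) (prog : Q → Op K Γ Q) (e : Base K Γ Q → ℕ) (q0 : Q)
  (S0 : K → List Γ) (L : ℕ), Function.Injective e → 1 ≤ L → (∀ k, (S0 k).length ≤ L) →
  ∀ τ : ℕ → ℕ → Tile, τ 0 0 = seed e q0 → (∀ i j, OkW prog e q0 S0 L (winAt τ i j)) →
  ∃ θ : ℕ → ℕ → Base K Γ Q, (∀ i j, HR (θ i j) (θ i (j + 1))) ∧
    (∀ i j, VR prog (θ i j) (θ i (j + 1)) (θ (i + 1) j) (θ (i + 1) (j + 1))) ∧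
    RowOk (θ 0) (q0, S0)

/-- One step.  `c' = (q', S')`.  Push `o` on `k`: `VR` at column `0` gives `θ' 0 = ctl run q'` and that the
letter of `k` in `θ' 1` is `o`; `VR` at column `j ≥ 1` (with `j + 1 ≤ w` in the second alternative)
gives `θ' j = cell run q' m` with `m k' = l k'` (`k' ≠ k`) and that the letter of `k` in `θ' (j + 1)` is the
letter of `k` in `θ j`; so the letters of `k` in `θ'` are those of `o :: S k`.  At column `w` (second
alternative): `θ' (w + 1) = J` and `(S k)[w - 1]? = none`, so the length of `S k` is at most `w - 1`.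
Pop from `k` with `S k = o :: z`: `θ' 0 = ctl run (f o)`; column `0` also gives `θ' 1 = cell run (f o) _`, and
the states in the row `θ'` are equal by `HR`; column `j`: the letter of `k` in `θ' j` is the letter of `k` in
`θ (j + 1)`, that is `(S k)[j]? = z[j - 1]?`; at column `w` it is `none = (S k)[w]?`, and
`θ' (w + 1) = J`. -/
def N2 : Prop := ∀ (K Γ Q : Type) (_ : DecidableEq K) (prog : Q → Op K Γ Q)
  (θ θ' : ℕ → Base K Γ Q) (c c' : Q × (K → List Γ)),
  (∀ j, HR (θ j) (θ (j + 1))) → (∀ j, HR (θ' j) (θ' (j + 1))) →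
  (∀ j, VR prog (θ j) (θ (j + 1)) (θ' j) (θ' (j + 1))) →
  RowOk θ c → stepM prog c = some c' → RowOk θ' c'

/-- `VR` at column `0` (`θ 0 = ctl _ q`, `θ 1 = cell _ q l` with `l k = (S k)[0]?`): `halt false` is not
allowed, `halt true` and push are excluded by the hypotheses (a push can always be done), and for a
pop with `S k = []` the rule says `l k = some o`, but `l k = none`. -/
def N3 : Prop := ∀ (K Γ Q : Type) (_ : DecidableEq K) (prog : Q → Op K Γ Q)
  (θ θ' : ℕ → Base K Γ Q) (c : Q × (K → List Γ)),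
  (∀ j, VR prog (θ j) (θ (j + 1)) (θ' j) (θ' (j + 1))) →
  RowOk θ c → stepM prog c = none → prog c.1 ≠ .halt true → False

/-- A machine that gets stuck without accepting has no tiling of the quadrant. -/
def NO : Prop := ∀ (K Γ Q : Type) (_ : DecidableEq K) (prog : Q → Op K Γ Q) (e : Base K Γ Q → ℕ)
  (q0 : Q) (S0 : K → List Γ) (L : ℕ), Function.Injective e → 1 ≤ L → (∀ k, (S0 k).length ≤ L) →
  (∃ c, Reach prog (q0, S0) c ∧ stepM prog c = none ∧ prog c.1 ≠ .halt true) →
  ∀ τ : ℕ → ℕ → Tile, τ 0 0 = seed e q0 → ¬ ∀ i j, OkW prog e q0 S0 L (winAt τ i j)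

/-- Assembly: by induction on `Reach` (from the left, with the index of the row generalised) the
row `θ i` is the `i`-th configuration. -/
def NF : Prop := N1 → N2 → N3 → NO

/-! ## Tilings of a torus for machines that accept -/

/-- The path as a function on `ℕ`, and a bound for the lengths of the stacks (`K` is finite). -/
def YA : Prop := ∀ (K Γ Q : Type) (_ : DecidableEq K) (_ : Finite K) (prog : Q → Op K Γ Q)
  (c0 c : Q × (K → List Γ)) (L : ℕ), Reach prog c0 c →
  ∃ (t w : ℕ) (f : ℕ → Q × (K → List Γ)), L ≤ w ∧ 1 ≤ w ∧ f 0 = c0 ∧ f t = c ∧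
    (∀ i < t, stepM prog (f i) = some (f (i + 1))) ∧ ∀ i ≤ t, ∀ k, ((f i).2 k).length ≤ w

/-- The windows above a row.  First part: cases `j = 0`, `1 ≤ j < w`, `j = w` and the instruction.
`m` in `VR` is the letter function of `rrow w c'`.  Push: `(o :: z)[0]? = some o`,
`(o :: z)[j]? = z[j - 1]?` for `j ≥ 1`, and at `j = w`: `(S k)[w - 1]? = none` because the length of
`o :: S k` is at most `w`.  Pop (`S k = o :: z`): `(o :: z)[j]? = z[j - 1]?`, at `j = w` both are `none`.
Second part: `VR` for `halt true` in the three cases. -/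
def YB : Prop := ∀ (K Γ Q : Type) (_ : DecidableEq K) (prog : Q → Op K Γ Q) (w : ℕ)
  (θ : ℕ → Base K Γ Q) (c : Q × (K → List Γ)), 1 ≤ w → IsRow w θ c →
  (∀ k, (c.2 k).length ≤ w) →
  (∀ c', stepM prog c = some c' → (∀ k, (c'.2 k).length ≤ w) →
    ∀ j ≤ w, VR prog (θ j) (θ (j + 1)) (rrow w c' j) (rrow w c' (j + 1))) ∧
  (prog c.1 = .halt true → ∀ j ≤ w, VR prog (θ j) (θ (j + 1)) .J .J)

/-- The rows `zrow` and `rrow`: they are rows of width `w` in the sense of `IsRow`, the horizontal rule holds, also from the last column `w + 1`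
to the column `0` of the same row, and `zrow w L q0 S0` consists of tiles with `SJ`.  Case distinctions;
for `zrow` use that the stacks are not longer than `L`. -/
def YH : Prop := ∀ (K Γ Q : Type) (w L : ℕ) (q0 : Q) (S0 : K → List Γ)
  (c : Q × (K → List Γ)), 1 ≤ L → L ≤ w → (∀ k, (S0 k).length ≤ L) →
  IsRow w (zrow w L q0 S0) (q0, S0) ∧ IsRow w (rrow w c) c ∧
  (∀ j ≤ w, HR (zrow w L q0 S0 j) (zrow w L q0 S0 (j + 1))) ∧
  (∀ j ≤ w, HR (rrow w c j) (rrow w c (j + 1))) ∧
  HR (zrow w L q0 S0 (w + 1)) (zrow w L q0 S0 0) ∧ HR (rrow w c (w + 1)) (rrow w c 0) ∧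
  (∀ j, SJ (zrow w L q0 S0 j)) ∧ (∀ j, L < j → NS (zrow w L q0 S0 j)) ∧ (∀ j, NS (rrow w c j))

/-- `T i j = θ i.val j.val`; `(i + 1).val` is `i.val + 1` or `0` (if `i.val + 1 = n`). -/
def YC : Prop := ∀ (n m : ℕ) (_ : NeZero n) (_ : NeZero m) (θ : ℕ → ℕ → Tile) (P : Win → Prop),
  (∀ i < n, ∀ j < m, P ((θ i j, θ i ((j + 1) % m)), (θ ((i + 1) % n) j, θ ((i + 1) % n) ((j + 1) % m)))) →
  ∃ T : ZMod n → ZMod m → Tile, T 0 0 = θ 0 0 ∧ ∀ i j, P (winT T i j)

/-- A machine that accepts has a tiling of a torus. -/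
def YES : Prop := ∀ (K Γ Q : Type) (_ : DecidableEq K) (_ : Finite K) (prog : Q → Op K Γ Q)
  (e : Base K Γ Q → ℕ) (q0 : Q) (S0 : K → List Γ) (L : ℕ), 1 ≤ L → (∀ k, (S0 k).length ≤ L) →
  (∃ c, Reach prog (q0, S0) c ∧ prog c.1 = .halt true) →
  ∃ (n m : ℕ) (_ : NeZero n) (_ : NeZero m) (T : ZMod n → ZMod m → Tile),
    T 0 0 = seed e q0 ∧ ∀ i j, OkW prog e q0 S0 L (winT T i j)

/-- Assembly.  Take `t, w, f` from `YA` (with `w ≥ L`), `n = t + 2`, `m = w + 2`, and apply `YC` to the
tiles `θ i j = (e (B i j), ι i j)`, where `B 0 = zrow w L q0 S0`, `B i = rrow w (f i)` for `1 ≤ i ≤ t`,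
`B (t + 1) j = J`, and `ι 0 j = j + 1` for `j ≤ L`, all other `ι i j = 0`.  Horizontal rule: `YH`, and
`HR J J`.  Vertical rule: rows `i < t`: `YB` for `j ≤ w`, and for `j = w + 1`: `VR` of `J, ctl` below
`J, ctl run`; row `t`: `YB` second part for `j ≤ w`, and `J, ctl` below `J, J`; row `t + 1`: `SJ` (`YH`).
`TileOk`: `YH` (`NS`), and `zrow w L q0 S0 j = srow q0 S0 j` for `j ≤ L`.  `IdxOk` for the row `0`:
`(j + 1, j + 2)` for `j < L`, `(L + 1, 0)`, `(0, 0)`, and `(0, 1)` at the last column. -/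
def YD : Prop := YA → YB → YH → YC → YES

/-! ## The machine -/

/-- Simulation of a multi-stack machine of `Pool.Agent.H662R2.SM` by one push or pop per step.  States:
`Q' = Q ⊕ ({x : K × List Γ × Q // x.2.1.length ≤ B} ⊕ Bool)` where `B` bounds the lengths of the words of `M.δ`
(`Q`, `Γ` finite), so `Q'` is finite.  `prog (inl q)` = pop from `M.κ q` with
`f o = go (M.κ q) w.reverse q'` if `M.δ q o = some (q', w)`, and `inr (inr true)` if `acc q o`, `inr (inr false)`
otherwise; here `go k [] q' = inl q'` and `go k (a :: v) q' = inr (inl (k, a :: v, q'))`;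
`prog (inr (inl (k, a :: v, q'))) = push k a (go k v q')` (anything for an empty word);
`prog (inr (inr b)) = halt b`.  Pushing the letters of `w.reverse` one after the other on `z` gives
`w ++ z`. -/
def SMA : Prop := ∀ (K Γ Q : Type) (_ : DecidableEq K) (_ : Finite K) (_ : Finite Γ) (_ : Finite Q)
  (M : Pool.Agent.H662R2.SM.Mach K Γ Q) (acc : Q → Γ → Prop),
  (∀ q o, acc q o → M.δ q o = none) →
  ∃ (Q' : Type) (_ : Finite Q') (prog : Q' → Op K Γ Q') (ι : Q → Q'),
    (∀ q S q' S', M.step (q, S) = some (q', S') → Reach prog (ι q, S) (ι q', S')) ∧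
    (∀ q S o z, S (M.κ q) = o :: z → acc q o →
      ∃ c, Reach prog (ι q, S) c ∧ prog c.1 = .halt true) ∧
    (∀ q S, M.step (q, S) = none → (∀ o z, S (M.κ q) = o :: z → ¬ acc q o) →
      ∃ c, Reach prog (ι q, S) c ∧ stepM prog c = none ∧ prog c.1 ≠ .halt true)

/-- The universal machine. -/
def SIMP : Prop := ∃ (Q : Type) (_ : Finite Q) (prog : Q → Op K' (Option Γ') Q) (q0 : Q),
  (∀ n, 0 ∈ Pool.Agent.H662R2.SM.diag n →
    ∃ c, Reach prog (q0, Pool.Agent.H662R2.SM.start n) c ∧ prog c.1 = .halt true) ∧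
  (∀ n, 1 ∈ Pool.Agent.H662R2.SM.diag n →
    ∃ c, Reach prog (q0, Pool.Agent.H662R2.SM.start n) c ∧ stepM prog c = none ∧
      prog c.1 ≠ .halt true)

/-- From `Pool.Agent.H662R2.SM.exists_mach`, `diag_partrec` and `SMA`. -/
def SMB : Prop := SMA → SIMP

/-! ## The computable list of allowed windows -/

/-- `trNat n = (Nat.bits n).map (fun b => cond b Γ'.bit1 Γ'.bit0)` (induction as in `Nat.bits`, `Num`), and
`Nat.bits n = (List.range (Nat.size n)).map n.testBit` is primitive recursive, where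
`Nat.size n` = the number of `j < n + 1` with `2 ^ j ≤ n`, `n.testBit j = decide (n / 2 ^ j % 2 = 1)`. -/
def O1 : Prop := ∃ g : ℕ → List Bool, Primrec g ∧
  ∀ n, trNat n = (g n).map (fun b => cond b Γ'.bit1 Γ'.bit0)

/-- `L n = (trNat n).length + 2`.  The list is the constant list of the tiles `(e θ, 0)`, `NS θ` (`Base` is
finite), followed by `(e (srow q0 (start n) j), j + 1)`, `j ≤ L n`.  For `j ≥ 1` the letter function
`k ↦ (start n k)[j - 1]?` depends only on `decide (j = 1)` (stacks `k ≠ main` are `[none]`) and on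
`((trNat n).map some ++ [some cons, none])[j - 1]?`, an element of the finite type
`Option (Option Γ')` (code it by a number: `Primrec.dom_finite`), which is computed from `g n` of `O1`. -/
def O2 : Prop := O1 → ∀ (Q : Type) (_ : Finite Q) (q0 : Q) (e : Base K' (Option Γ') Q → ℕ),
  ∃ t : ℕ → List Tile, Computable t ∧
    ∀ n x, x ∈ t n ↔ TileOk e q0 (Pool.Agent.H662R2.SM.start n) ((trNat n).length + 2) x

/-- The computable list of the allowed windows. -/
def OKC : Prop := ∀ (Q : Type) (_ : Finite Q) (prog : Q → Op K' (Option Γ') Q) (q0 : Q),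
  ∃ (e : Base K' (Option Γ') Q → ℕ) (L : ℕ → ℕ) (ok : ℕ → List Win), Function.Injective e ∧
    (∀ n, 1 ≤ L n) ∧ (∀ n k, (Pool.Agent.H662R2.SM.start n k).length ≤ L n) ∧ Computable ok ∧
    ∀ n w, w ∈ ok n ↔ OkW prog e q0 (Pool.Agent.H662R2.SM.start n) (L n) w

/-- `Base K' (Option Γ') Q` is finite (`K'`, `Γ'`, `Q`, `St` are finite), so there are an injective `e` and
a constant list `W0 : List ((ℕ × ℕ) × (ℕ × ℕ))` of the quadruples `(e a, e b, e c, e d)` with `HR a b`,
`HR c d`, `VR prog a b c d`.  `L n = (trNat n).length + 2`.  `ok n` = the list of all windows `w` with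
entries in `t n` (of `O2`), with `((w.1.1.1, w.1.2.1), (w.2.1.1, w.2.2.1)) ∈ W0` and
`IdxOk (L n) w.1.1.2 w.1.2.2` (`flatMap`s and a filter; `L` is computable by `O1`). -/
def O3 : Prop := O1 → O2 → OKC

/-! ## The search -/

/-- `f n` = the disjunction over all `Q` in the list `(ok n).sublists'` (`C3`, `List.mem_sublists'`) of
[some `w ∈ Q` has `w.1.1 = s`] and `D (code Q)`; the disjunction over a computable list of a computable
Boolean function: `Computable.nat_rec` on the index in the list (`Computable.list_getElem?`,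
`Computable.list_length`). -/
def SRCH : Prop := C3 → ∀ (ok : ℕ → List Win) (cd : List Win → Code) (s : Tile) (D : Code → Prop),
  Computable ok → Computable cd → ComputablePred D →
  ∃ f : ℕ → Bool, Computable f ∧
    ∀ n, (f n = true ↔ ∃ Q, List.Sublist Q (ok n) ∧ (∃ w ∈ Q, w.1.1 = s) ∧ D (cd Q))

/-! ## The result -/

/-- The result (Q1 of the problem, both parts). -/
def MAIN : Prop := ¬ ComputablePred RepCode.{u} ∧ ¬ ComputablePred FinRepCode.{u} ∧
  ∀ (n : ℕ) (f : Fin (n + 1) → Fin (n + 1) → Fin (n + 1)), ∃ l, op n l = f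

/-- Assembly (helper638).  Representations move from `Type` to `Type u` by `ULift`, a finite
representation is a representation.  Let `D` be `RepCode` or `FinRepCode`, and assume that it is
computable.  `SIMP` gives the machine, `OKC` the list `ok`, `SRCH` with `cd = code`, `s = seed e q0` the
computable `f`.  If `0 ∈ diag n`: `YES` gives a tiling `T` of a torus, `Q` = the windows of `T`
(a sublist of `ok n`), `REP` and `C5` give `D (code Q)`, so `f n = true`.  If `1 ∈ diag n`: if
`f n = true` then `C5` and `QUAD` give a tiling of the quadrant with windows in `ok n`, contradiction to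
`NO`.  So `f` separates, contradiction to `insep`. -/
def FIN : Prop := QUAD.{u} → REP → C1 → C3 → Computable code → C5.{u} → NO → YES → SIMP → OKC → SRCH →
  MAIN.{u}

end Pool.Agent.Run7.h638.WR
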