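import Pool.Agent.Run7.h638.WR.Iface

set_option autoImplicit false

namespace Pool.Agent.Run7.h638.WR

theorem hr_next {K Γ Q : Type} {s : St} {q0 : Q} {l : K → Option Γ} {θ : Base K Γ Q}
    (hs : s ≠ .run) (h : HR (.cell s q0 l) θ) (hn : NS θ) :
    θ = .J ∨ θ = .cell .sb q0 (fun _ => none) := by
  cases θ with
  | J => left; rfl
  | ctl s' q' => exact absurd h (by simp [HR])
  | cell s' q' l' =>
    simp only [HR] at h
    simp only [NS] at hn
    obtain ⟨h1, h2⟩ := h
    rcases h2 with h2 | h2 | h2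
    · exact absurd h2.1 hs
    · exact absurd h2.2 hn
    · right
      rw [h1, h2.2.1, h2.2.2]

theorem t_N1 : N1 := by
  intro K Γ Q prog e q0 S0 L he hL hlen τ h0 hτ
  choose a b c d ha using fun i j => (hτ i j).1
  have hA : ∀ i j, (τ i j).1 = e (a i j) := fun i j => (ha i j).1
  have hb : ∀ i j, b i j = a i (j + 1) := fun i j =>
    he ((ha i j).2.1.symm.trans (hA i (j + 1)))
  have hc : ∀ i j, c i j = a (i + 1) j := fun i j =>
    he ((ha i j).2.2.1.symm.trans (hA (i + 1) j))
  have hd : ∀ i j, d i j = a (i + 1) (j + 1) := fun i j =>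
    he ((ha i j).2.2.2.1.symm.trans (hA (i + 1) (j + 1)))
  have hHR : ∀ i j, HR (a i j) (a i (j + 1)) := by
    intro i j
    have := (ha i j).2.2.2.2.1
    rwa [hb] at this
  have hVR : ∀ i j, VR prog (a i j) (a i (j + 1)) (a (i + 1) j) (a (i + 1) (j + 1)) := by
    intro i j
    have := (ha i j).2.2.2.2.2.2
    rwa [hb, hc, hd] at this
  have hT : ∀ i j, TileOk e q0 S0 L (τ i j) := fun i j => (hτ i j).2.1
  have hI : ∀ i j, IdxOk L (τ i j).2 (τ i (j + 1)).2 := fun i j => (hτ i j).2.2.2.2.2
  have cl1 : ∀ j, j ≤ L → (τ 0 j).2 = j + 1 ∧ a 0 j = srow q0 S0 j := by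
    intro j
    induction j with
    | zero =>
      intro _
      refine ⟨by rw [h0]; rfl, ?_⟩
      have h1 := hA 0 0
      rw [h0] at h1
      have h2 := he h1
      rw [← h2]
      simp [srow]
    | succ j ih =>
      intro hj
      obtain ⟨h1, _⟩ := ih (by omega)
      have h2 := hI 0 j
      rw [h1] at h2
      have h3 : (τ 0 (j + 1)).2 = j + 1 + 1 := by
        unfold IdxOk at h2
        omega
      refine ⟨h3, ?_⟩
      rcases hT 0 (j + 1) with h4 | h4
      · omega
      · have h5 := h4.2.2
        rw [h3, hA] at h5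
        exact he h5
  have cl2 : (τ 0 (L + 1)).2 = 0 := by
    have h2 := hI 0 L
    rw [(cl1 L le_rfl).1] at h2
    unfold IdxOk at h2
    omega
  have nsx : ∀ j, (τ 0 j).2 = 0 → NS (a 0 j) := by
    intro j hj
    rcases hT 0 j with h4 | h4
    · obtain ⟨θ, h5, h6⟩ := h4.2
      rw [hA] at h6
      rw [he h6]; exact h5
    · omega
  have cl3 : ∀ t, (∃ j', L + 1 ≤ j' ∧ j' ≤ L + 1 + t ∧ a 0 j' = .J) ∨
      ((τ 0 (L + 1 + t)).2 = 0 ∧ a 0 (L + 1 + t) = .cell .sb q0 (fun _ => none)) := by
    intro t
    induction t with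
    | zero =>
      have h1 := hHR 0 L
      have h2 := (cl1 L le_rfl).2
      have h3 : srow q0 S0 L = .cell .sx q0 (fun k => (S0 k)[L - 1]?) := by
        unfold srow; rw [if_neg (by omega)]
      rw [h2, h3] at h1
      rcases hr_next (by simp) h1 (nsx _ cl2) with h | h
      · left; exact ⟨L + 1, le_rfl, by omega, h⟩
      · right; exact ⟨cl2, h⟩
    | succ t ih =>
      rcases ih with ⟨j', h1, h2, h3⟩ | ⟨h1, h2⟩
      · left; exact ⟨j', h1, by omega, h3⟩
      · have h3 := hI 0 (L + 1 + t)
        have h4 := hHR 0 (L + 1 + t)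
        rw [h1] at h3
        rw [h2] at h4
        have h5 : (τ 0 (L + 1 + t + 1)).2 = 0 ∨ (τ 0 (L + 1 + t + 1)).2 = 1 := by
          unfold IdxOk at h3
          omega
        rcases h5 with h5 | h5
        · rcases hr_next (by simp) h4 (nsx _ h5) with h | h
          · left; exact ⟨L + 1 + t + 1, by omega, by omega, h⟩
          · right; exact ⟨h5, h⟩
        · exfalso
          rcases hT 0 (L + 1 + t + 1) with h6 | h6
          · omega
          · have h7 := h6.2.2
            rw [h5, hA] at h7
            have h8 := he h7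
            rw [h8] at h4
            simp [srow, HR] at h4
  have none' : ∀ j, L < j → (fun k => (S0 k)[j - 1]?) = fun _ => none := by
    intro j hj
    funext k
    rw [List.getElem?_eq_none]
    have := hlen k
    omega
  refine ⟨a, hHR, hVR, ⟨.sx, ?_⟩, ?_⟩
  · rw [(cl1 0 (Nat.zero_le L)).2]
    simp [srow]
  · by_cases hJ : ∃ j', L + 1 ≤ j' ∧ a 0 j' = .J
    · right
      classical
      obtain ⟨hj1, hj2⟩ := Nat.find_spec hJ
      have hmin : ∀ j, j < Nat.find hJ → ¬ (L + 1 ≤ j ∧ a 0 j = .J) := fun j hj =>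
        Nat.find_min hJ hj
      set w := Nat.find hJ with hw
      refine ⟨w - 1, by omega, ?_, ?_, ?_⟩
      · intro j h1 h2
        by_cases hjL : j ≤ L
        · refine ⟨.sx, ?_⟩
          rw [(cl1 j hjL).2]
          unfold srow; rw [if_neg (by omega)]
        · refine ⟨.sb, ?_⟩
          rcases cl3 (j - (L + 1)) with ⟨j', h3, h4, h5⟩ | ⟨_, h3⟩
          · exact absurd ⟨h3, h5⟩ (hmin j' (by omega))
          · have h6 : L + 1 + (j - (L + 1)) = j := by omega
            rw [h6] at h3
            rw [h3]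
            show _ = Base.cell St.sb q0 (fun k => (S0 k)[j - 1]?)
            rw [none' j (by omega)]
      · have h6 : w - 1 + 1 = w := by omega
        rw [h6]; exact hj2
      · intro k
        have := hlen k
        show (S0 k).length ≤ w - 1
        omega
    · left
      intro j h1
      by_cases hjL : j ≤ L
      · refine ⟨.sx, ?_⟩
        rw [(cl1 j hjL).2]
        unfold srow; rw [if_neg (by omega)]
      · refine ⟨.sb, ?_⟩
        rcases cl3 (j - (L + 1)) with ⟨j', h3, h4, h5⟩ | ⟨_, h3⟩
        · exact absurd ⟨j', h3, h5⟩ hJ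
        · have h6 : L + 1 + (j - (L + 1)) = j := by omega
          rw [h6] at h3
          rw [h3]
          show _ = Base.cell St.sb q0 (fun k => (S0 k)[j - 1]?)
          rw [none' j (by omega)]

end Pool.Agent.Run7.h638.WR
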