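import Pool.Agent.Run7.h638.WR.RR

set_option autoImplicit false

namespace Pool.Agent.Run7.h638.WR

theorem kk_cases {i j k : ℕ} (hi : i < 6) (hj : j < 6) (hk : k < 6) (h1 : kind i j ≠ 0)
    (h2 : kind j k ≠ 0) :
    (i = 0 ∧ j = 1 ∧ (k = 2 ∨ k = 3)) ∨ (i = 0 ∧ (j = 1 ∨ j = 2 ∨ j = 3) ∧ (k = 4 ∨ k = 5)) ∨
    (i = 1 ∧ (j = 2 ∨ j = 3) ∧ (k = 4 ∨ k = 5)) ∨
    ((i = 0 ∨ i = 1 ∨ i = 2 ∨ i = 3) ∧ j = 4 ∧ k = 5) := by
  unfold kind at h1 h2
  split_ifs at h1 h2 <;> omega

section

variable {n m : ℕ} [NeZero n] [NeZero m] (T : ZMod n → ZMod m → Tile)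
  (Q : List Win) (hQ : ∀ w, w ∈ Q ↔ ∃ i j, winT T i j = w)

include hQ

theorem rk_one (k : ℕ) (hk : kind 1 k = 2) (hk' : kind 0 k = 1) (u v : Win)
    (hu : u ∈ blk Q 0 1) (hv : v ∈ blk Q 1 k) (y y'' : Yt n m) :
    (∃ y', kap T 0 1 y y' = u ∧ kap T 1 k y' y'' = v) ↔ rule 0 1 k u v (kap T 0 k y y'') := by
  have h01 : kind 0 1 = 1 := rfl
  have hr : rule 0 1 k u v (kap T 0 k y y'') ↔
      (if v = lb 0 then kap T 0 k y y'' = u else (u = lb 2 ∨ kap T 0 k y y'' ≠ u)) := by
    unfold rule; rw [if_pos ⟨h01, hk⟩]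
  rw [hr]
  simp only [kap_one_zero T 0 1 _ _ h01 rfl, kap_one_zero T 0 k _ _ hk' rfl,
    kap_two T 1 k _ _ hk]
  rw [blk_one 0 1 Q h01] at hu
  rw [blk_two 1 k Q hk] at hv
  simp only [List.mem_cons, List.not_mem_nil, or_false] at hu hv
  have n01 : lb 0 ≠ lb 1 := lb_ne (by norm_num)
  have n02 : lb 0 ≠ lb 2 := lb_ne (by norm_num)
  have n12 : lb 1 ≠ lb 2 := lb_ne (by norm_num)
  rcases hv with rfl | rfl
  · rw [if_pos rfl]
    constructor
    · rintro ⟨y', h1, h2⟩
      have : y'' = y' := by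
        by_contra hne
        rw [if_neg hne] at h2
        exact n02 h2.symm
      rw [this]; exact h1
    · intro h
      exact ⟨y'', h, if_pos rfl⟩
  · rw [if_neg n02.symm]
    constructor
    · rintro ⟨y', h1, h2⟩
      have hne : y'' ≠ y' := by
        intro e
        rw [if_pos e] at h2
        exact n02 h2
      rcases hu with rfl | rfl | rfl
      · right
        have : y' = y := by
          by_contra hne
          rw [if_neg hne] at h1
          split_ifs at h1
          · exact n01 h1.symm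
          · exact n02 h1.symm
        subst this
        rw [if_neg hne]
        split_ifs
        · exact n01.symm
        · exact n02.symm
      · right
        have h3 : y' ≠ y := by
          intro e
          rw [if_pos e] at h1
          exact n01 h1
        rw [if_neg h3] at h1
        have h4 : y' = y + ea n m := by
          by_contra hne
          rw [if_neg hne] at h1
          exact n12 h1.symm
        subst h4
        split_ifs
        · exact n01
        · exact n12.symm
      · left; rfl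
    · intro h
      rcases hu with rfl | rfl | rfl
      · refine ⟨y, if_pos rfl, if_neg ?_⟩
        intro e
        rw [if_pos e] at h
        rcases h with h | h
        · exact n02 h
        · exact h rfl
      · refine ⟨y + ea n m, by rw [if_neg (ea_ne y), if_pos rfl], if_neg ?_⟩
        intro e
        rw [e, if_neg (ea_ne y), if_pos rfl] at h
        rcases h with h | h
        · exact n12 h
        · exact h rfl
      · obtain ⟨c, c1, c2, c3⟩ := z5d y.2.2 y''.2.2
        refine ⟨(y.1, y.2.1, c), ?_, ?_⟩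
        · rw [if_neg (ne_of_third c1), if_neg (ne_of_third (by rw [ea_third]; exact c2))]
        · rw [if_neg (ne_of_third (Ne.symm c3))]

theorem rk_two (j k : ℕ) (h0j : kind 0 j = 1) (hj : j ≠ 0) (hjk : kind j k = 3)
    (h0k : kind 0 k = 3) (u v : Win)
    (hu : u ∈ blk Q 0 j) (hv : v ∈ blk Q j k) (y y'' : Yt n m) :
    (∃ y', kap T 0 j y y' = u ∧ kap T j k y' y'' = v) ↔ rule 0 j k u v (kap T 0 k y y'') := by
  have hr : rule 0 j k u v (kap T 0 k y y'') ↔
      (if u = lb 0 then (kap T 0 k y y'').1 = v.1 else (u = lb 1 → (kap T 0 k y y'').2 = v.1)) := by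
    unfold rule; rw [if_neg (by omega), if_pos ⟨h0j, hjk⟩]
  rw [hr]
  simp only [kap_one_zero T 0 j _ _ h0j rfl, kap_three T 0 k _ _ h0k, kap_three T j k _ _ hjk]
  rw [blk_one 0 j Q h0j] at hu
  rw [blk_three j k Q hjk] at hv
  simp only [List.mem_cons, List.not_mem_nil, or_false] at hu
  obtain ⟨w', hw', rfl⟩ := List.mem_map.1 hv
  obtain ⟨a, b, rfl⟩ := (hQ w').1 hw'
  have n01 : lb 0 ≠ lb 1 := lb_ne (by norm_num)
  have n02 : lb 0 ≠ lb 2 := lb_ne (by norm_num)
  have n12 : lb 1 ≠ lb 2 := lb_ne (by norm_num)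
  rcases hu with rfl | rfl | rfl
  · rw [if_pos rfl]
    constructor
    · rintro ⟨y', h1, h2⟩
      have : y' = y := by
        by_contra hne
        rw [if_neg hne] at h1
        split_ifs at h1
        · exact n01 h1.symm
        · exact n02 h1.symm
      subst this
      have h3 := congrArg Prod.fst h2
      simpa [prj] using h3
    · intro h
      refine ⟨y, if_pos rfl, ?_⟩
      refine Prod.ext ?_ ?_
      · simpa [prj] using h
      · simp [prj, hj]
  · rw [if_neg n01.symm]
    constructor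
    · rintro ⟨y', h1, h2⟩ _
      have h3 : y' ≠ y := by
        intro e
        rw [if_pos e] at h1
        exact n01 h1
      rw [if_neg h3] at h1
      have h4 : y' = y + ea n m := by
        by_contra hne
        rw [if_neg hne] at h1
        exact n12 h1.symm
      subst h4
      have h5 := congrArg Prod.fst h2
      simp only [prj, winT, ea, Prod.fst_add, Prod.snd_add, add_zero] at h5 ⊢
      rw [← h5]
      have e1 : y.1 + 1 + y''.1 = y.1 + y''.1 + 1 := by ring
      rw [e1]
      simp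
    · intro h
      have h' := h rfl
      refine ⟨y + ea n m, by rw [if_neg (ea_ne y), if_pos rfl], ?_⟩
      have e1 : y.1 + 1 + y''.1 = y.1 + y''.1 + 1 := by ring
      refine Prod.ext ?_ ?_
      · rw [← h']
        simp only [prj, winT, ea, Prod.fst_add, Prod.snd_add, add_zero]
        rw [e1]
        simp
      · simp [prj, hj]
  · rw [if_neg n02.symm]
    constructor
    · intro _ h
      exact absurd h n12.symm
    · intro _
      refine ⟨(a - y''.1, b - y''.2.1, y.2.2 + 2), ?_, ?_⟩
      · rw [if_neg (ne_of_third (z5b _)), if_neg (ne_of_third (by rw [ea_third]; exact z5c _))]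
      · simp

theorem rk_three (j k : ℕ) (h1j : kind 1 j = 2) (hj : j ≠ 0) (hjk : kind j k = 3)
    (h1k : kind 1 k = 3) (u v : Win)
    (hu : u ∈ blk Q 1 j) (hv : v ∈ blk Q j k) (y y'' : Yt n m) :
    (∃ y', kap T 1 j y y' = u ∧ kap T j k y' y'' = v) ↔ rule 1 j k u v (kap T 1 k y y'') := by
  have hr : rule 1 j k u v (kap T 1 k y y'') ↔ (u = lb 0 → kap T 1 k y y'' = v) := by
    unfold rule; rw [if_neg (by omega), if_neg (by omega), if_pos ⟨h1j, hjk⟩]
  rw [hr]
  simp only [kap_two T 1 j _ _ h1j, kap_three T 1 k _ _ h1k, kap_three T j k _ _ hjk]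
  rw [blk_two 1 j Q h1j] at hu
  rw [blk_three j k Q hjk] at hv
  simp only [List.mem_cons, List.not_mem_nil, or_false] at hu
  obtain ⟨w', hw', rfl⟩ := List.mem_map.1 hv
  obtain ⟨a, b, rfl⟩ := (hQ w').1 hw'
  have n02 : lb 0 ≠ lb 2 := lb_ne (by norm_num)
  have hp : ∀ w, prj 1 k w = prj j k w := by
    intro w
    simp [prj, hj]
  rcases hu with rfl | rfl
  · constructor
    · rintro ⟨y', h1, h2⟩ _
      have : y' = y := by
        by_contra hne
        rw [if_neg hne] at h1
        exact n02 h1.symm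
      subst this
      rw [hp]; exact h2
    · intro h
      refine ⟨y, if_pos rfl, ?_⟩
      rw [← hp]; exact h rfl
  · constructor
    · intro _ h
      exact absurd h n02.symm
    · intro _
      refine ⟨(a - y''.1, b - y''.2.1, y.2.2 + 1), ?_, ?_⟩
      · rw [if_neg (ne_of_third (z5a _))]
      · simp

theorem rk_four (i : ℕ) (hi4 : kind i 4 = 3) (hi5 : kind i 5 = 3) (u v : Win)
    (hu : u ∈ blk Q i 4) (hv : v ∈ blk Q 4 5) (y y'' : Yt n m) :
    (∃ y', kap T i 4 y y' = u ∧ kap T 4 5 y' y'' = v) ↔ rule i 4 5 u v (kap T i 5 y y'') := by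
  have h45 : kind 4 5 = 1 := rfl
  have hr : rule i 4 5 u v (kap T i 5 y y'') ↔
      (if v = lb 0 then (kap T i 5 y y'').1.1 = u.1.1 ∧ (kap T i 5 y y'').2.1 = u.2.1
      else (v = lb 1 → (kap T i 5 y y'').1.2 = u.1.1 ∧ (kap T i 5 y y'').2.2 = u.2.1)) := by
    unfold rule
    rw [if_neg (by omega), if_neg (by omega), if_neg (by omega), if_pos ⟨hi4, h45⟩]
  rw [hr]
  simp only [kap_three T i 4 _ _ hi4, kap_three T i 5 _ _ hi5,
    kap_one_four T 4 5 _ _ h45 (by norm_num : (4 : ℕ) ≠ 0)]
  rw [blk_three i 4 Q hi4] at hu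
  rw [blk_one 4 5 Q h45] at hv
  simp only [List.mem_cons, List.not_mem_nil, or_false] at hv
  obtain ⟨w', hw', rfl⟩ := List.mem_map.1 hu
  obtain ⟨a, b, rfl⟩ := (hQ w').1 hw'
  have n01 : lb 0 ≠ lb 1 := lb_ne (by norm_num)
  have n02 : lb 0 ≠ lb 2 := lb_ne (by norm_num)
  have n12 : lb 1 ≠ lb 2 := lb_ne (by norm_num)
  rcases hv with rfl | rfl | rfl
  · rw [if_pos rfl]
    constructor
    · rintro ⟨y', h1, h2⟩
      have : y'' = y' := by
        by_contra hne
        rw [if_neg hne] at h2
        split_ifs at h2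
        · exact n01 h2.symm
        · exact n02 h2.symm
      subst this
      have h3 := congrArg (fun w : Win => w.1.1) h1
      have h4 := congrArg (fun w : Win => w.2.1) h1
      simp only [prj] at h3 h4 ⊢
      exact ⟨h3, h4⟩
    · rintro ⟨h3, h4⟩
      refine ⟨y'', ?_, if_pos rfl⟩
      simp only [prj] at h3 h4 ⊢
      rw [h3, h4]
      simp
  · rw [if_neg n01.symm]
    have e1 : y.2.1 + (y''.2.1 + 1) = y.2.1 + y''.2.1 + 1 := by ring
    constructor
    · rintro ⟨y', h1, h2⟩ _
      have h3 : y'' ≠ y' := by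
        intro e
        rw [if_pos e] at h2
        exact n01 h2
      rw [if_neg h3] at h2
      have h4 : y' = y'' + eb n m := by
        by_contra hne
        rw [if_neg hne] at h2
        exact n12 h2.symm
      subst h4
      have h5 := congrArg (fun w : Win => w.1.1) h1
      have h6 := congrArg (fun w : Win => w.2.1) h1
      simp only [prj, winT, eb, Prod.fst_add, Prod.snd_add, add_zero] at h5 h6 ⊢
      rw [e1] at h5 h6
      refine ⟨?_, ?_⟩
      · rw [← h5]; simp
      · rw [← h6]; simp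
    · intro h
      obtain ⟨h5, h6⟩ := h rfl
      refine ⟨y'' + eb n m, ?_, ?_⟩
      · simp only [prj, winT, eb, Prod.fst_add, Prod.snd_add, add_zero] at h5 h6 ⊢
        rw [e1]
        simp only [if_true, and_true] at h5 h6
        rw [h5, h6]
        simp
      · rw [if_neg (eb_ne y'').symm, if_pos rfl]
  · rw [if_neg n02.symm]
    constructor
    · intro _ h
      exact absurd h n12.symm
    · intro _
      refine ⟨(a - y.1, b - y.2.1, y''.2.2 + 2), ?_, ?_⟩
      · simp
      · rw [if_neg (ne_of_third (z5b _).symm),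
          if_neg (ne_of_third (by rw [eb_third]; exact z5c _))]

end

theorem t_RK : RK := by
  intro n m _ _ T Q hQ i j k hi hj hk h1 h2 u hu v hv y y''
  rcases kk_cases hi hj hk h1 h2 with ⟨rfl, rfl, hk⟩ | ⟨rfl, hj, hk⟩ | ⟨rfl, hj, hk⟩ | ⟨hi, rfl, rfl⟩
  · rcases hk with rfl | rfl
    · exact rk_one T Q hQ 2 rfl rfl u v hu hv y y''
    · exact rk_one T Q hQ 3 rfl rfl u v hu hv y y''
  · rcases hj with rfl | rfl | rfl <;> rcases hk with rfl | rfl
    · exact rk_two T Q hQ 1 4 rfl (by norm_num) rfl rfl u v hu hv y y''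
    · exact rk_two T Q hQ 1 5 rfl (by norm_num) rfl rfl u v hu hv y y''
    · exact rk_two T Q hQ 2 4 rfl (by norm_num) rfl rfl u v hu hv y y''
    · exact rk_two T Q hQ 2 5 rfl (by norm_num) rfl rfl u v hu hv y y''
    · exact rk_two T Q hQ 3 4 rfl (by norm_num) rfl rfl u v hu hv y y''
    · exact rk_two T Q hQ 3 5 rfl (by norm_num) rfl rfl u v hu hv y y''
  · rcases hj with rfl | rfl <;> rcases hk with rfl | rfl
    · exact rk_three T Q hQ 2 4 rfl (by norm_num) rfl rfl u v hu hv y y''
    · exact rk_three T Q hQ 2 5 rfl (by norm_num) rfl rfl u v hu hv y y''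
    · exact rk_three T Q hQ 3 4 rfl (by norm_num) rfl rfl u v hu hv y y''
    · exact rk_three T Q hQ 3 5 rfl (by norm_num) rfl rfl u v hu hv y y''
  · rcases hi with rfl | rfl | rfl | rfl
    · exact rk_four T Q hQ 0 rfl rfl u v hu hv y y''
    · exact rk_four T Q hQ 1 rfl rfl u v hu hv y y''
    · exact rk_four T Q hQ 2 rfl rfl u v hu hv y y''
    · exact rk_four T Q hQ 3 rfl rfl u v hu hv y y''

end Pool.Agent.Run7.h638.WR
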