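import Pool.Agent.Run7.h638.WR.Iface

set_option autoImplicit false

namespace Pool.Agent.Run7.h638.WR

/-- disjunction of a computable Boolean function over a computable list -/
theorem any_computable {α β : Type} [Primcodable α] [Primcodable β] {l : α → List β}
    {g : α → β → Bool} (hl : Computable l) (hg : Computable₂ g) :
    Computable fun a => (l a).any (g a) := by
  have h2 : Computable₂ fun (a : α) (p : ℕ × Bool) => (l a)[p.1]? :=
    (Computable.list_getElem?.comp (hl.comp Computable.fst)
      (Computable.fst.comp Computable.snd)).to₂
  have h3 : Computable fun q : α × (ℕ × Bool) => ((l q.1)[q.2.1]?.elim false (g q.1) : Bool) := by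
    have h4 := Computable.option_casesOn (o := fun q : α × (ℕ × Bool) => (l q.1)[q.2.1]?)
      (f := fun _ => false) (g := fun (q : α × (ℕ × Bool)) (b : β) => g q.1 b)
      h2 (Computable.const false)
      ((hg.comp (Computable.fst.comp Computable.fst) Computable.snd).to₂)
    refine h4.of_eq ?_
    intro q
    rcases (l q.1)[q.2.1]? with _ | b <;> rfl
  have h5 : Computable₂ fun (a : α) (p : ℕ × Bool) => (p.2 || (l a)[p.1]?.elim false (g a)) :=
    (Primrec.or.to_comp.comp (Computable.snd.comp Computable.snd) h3).to₂
  have h1 : Computable fun a => Nat.rec (motive := fun _ => Bool) false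
      (fun i acc => acc || (l a)[i]?.elim false (g a)) (l a).length :=
    Computable.nat_rec (f := fun a => (l a).length) (g := fun _ => false)
      (h := fun (a : α) (p : ℕ × Bool) => (p.2 || (l a)[p.1]?.elim false (g a)))
      (Computable.list_length.comp hl) (Computable.const false) h5
  refine h1.of_eq ?_
  intro a
  have key : ∀ k, k ≤ (l a).length → (Nat.rec (motive := fun _ => Bool) false
      (fun i acc => acc || (l a)[i]?.elim false (g a)) k : Bool) = ((l a).take k).any (g a) := by
    intro k
    induction k with
    | zero => intro _; simp
    | succ k ih =>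
      intro hk
      have hk' : k < (l a).length := by omega
      simp only
      rw [ih (by omega), List.take_succ_eq_append_getElem hk', List.any_append,
        List.getElem?_eq_getElem hk']
      simp
  rw [key _ le_rfl, List.take_length]

theorem t_SRCH : SRCH := by
  intro c3 ok cd s D hok hcd hD
  obtain ⟨hdec, hD'⟩ := hD
  have hsub : Computable fun n => (ok n).sublists' :=
    (c3 Win inferInstance).to_comp.comp hok
  have hs : Computable₂ fun (_ : List Win) (w : Win) => decide (w.1.1 = s) := by
    have h0 : Primrec₂ fun (a b : Tile) => decide (a = b) := (Primrec.eq (α := Tile)).decide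
    have h2 : Primrec fun w : Win => decide (w.1.1 = s) :=
      h0.comp (Primrec.fst.comp Primrec.fst) (Primrec.const s)
    exact (h2.to_comp.comp (Computable.snd (α := List Win) (β := Win))).to₂
  have h1 : Computable fun Q : List Win => Q.any (fun w => decide (w.1.1 = s)) :=
    any_computable Computable.id hs
  have h2 : Computable fun Q : List Win => decide (D (cd Q)) := hD'.comp hcd
  have h3 : Computable fun Q : List Win =>
      (Q.any (fun w => decide (w.1.1 = s)) && decide (D (cd Q))) :=
    Primrec.and.to_comp.comp h1 h2
  have h4 : Computable₂ fun (_ : ℕ) (Q : List Win) =>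
      (Q.any (fun w => decide (w.1.1 = s)) && decide (D (cd Q))) :=
    (h3.comp Computable.snd).to₂
  refine ⟨fun n => (ok n).sublists'.any fun Q =>
    (Q.any (fun w => decide (w.1.1 = s)) && decide (D (cd Q))), any_computable hsub h4, ?_⟩
  intro n
  simp only [List.any_eq_true, List.mem_sublists', Bool.and_eq_true, decide_eq_true_eq]

end Pool.Agent.Run7.h638.WR
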