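import Pool.Agent.Run7.h638.WR.Iface

set_option autoImplicit false

namespace Pool.Agent.Run7.h638.WR

theorem t_N3 : N3 := by
  intro K Γ Q dK prog θ θ' c hV hr hs hp
  have h0 := hV 0
  obtain ⟨⟨s, e0⟩, hr2⟩ := hr
  have e1 : ∃ s, θ 1 = .cell s c.1 (fun k => (c.2 k)[0]?) := by
    rcases hr2 with h | ⟨w, h1, h2, _⟩
    · exact h 1 le_rfl
    · exact h2 1 le_rfl h1
  obtain ⟨s', e1⟩ := e1
  rw [e0, show (0 : ℕ) + 1 = 1 from rfl, e1] at h0
  simp only [VR] at h0
  rcases hq : prog c.1 with ⟨k, o, q⟩ | ⟨k, f⟩ | ⟨acc⟩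
  · simp [stepM, hq] at hs
  · rw [hq] at h0
    simp only at h0
    obtain ⟨m, o, h1, _⟩ := h0
    rcases hk : c.2 k with _ | ⟨x, z⟩
    · rw [hk] at h1
      simp at h1
    · simp [stepM, hq, hk] at hs
  · rw [hq] at h0 hp
    cases acc
    · exact h0
    · exact hp rfl

theorem t_YC : YC := by
  intro n m hn hm θ P hP
  have hv : ∀ (k : ℕ) (_ : NeZero k) (i : ZMod k), (i + 1).val = (i.val + 1) % k := by
    intro k hk i
    rw [ZMod.val_add]
    by_cases h1 : k = 1
    · subst h1
      simp [Nat.mod_one]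
    · have : Fact (1 < k) := ⟨by
        have := hk.out
        omega⟩
      rw [ZMod.val_one]
  refine ⟨fun i j => θ i.val j.val, by simp, ?_⟩
  intro i j
  have := hP i.val (ZMod.val_lt i) j.val (ZMod.val_lt j)
  show P ((θ i.val j.val, θ i.val (j + 1).val), (θ (i + 1).val j.val, θ (i + 1).val (j + 1).val))
  rw [hv n hn i, hv m hm j]
  exact this

theorem t_YA : YA := by
  intro K Γ Q dK fK prog c0 c L hr
  have key : ∃ (t : ℕ) (f : ℕ → Q × (K → List Γ)), f 0 = c0 ∧ f t = c ∧
      ∀ i < t, stepM prog (f i) = some (f (i + 1)) := by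
    induction hr with
    | refl => exact ⟨0, fun _ => c0, rfl, rfl, fun i hi => absurd hi (by omega)⟩
    | @tail b d _ h ih =>
      obtain ⟨t, f, h0, ht, hs⟩ := ih
      refine ⟨t + 1, fun i => if i ≤ t then f i else d, ?_, ?_, ?_⟩
      · simp [h0]
      · simp
      · intro i hi
        by_cases hit : i + 1 ≤ t
        · simp only [if_pos hit, if_pos (show i ≤ t by omega)]
          exact hs i (by omega)
        · have : i = t := by omega
          subst this
          simp only [le_refl, if_true, if_neg hit]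
          rw [ht]; exact h
  obtain ⟨t, f, h0, ht, hs⟩ := key
  classical
  have := Fintype.ofFinite K
  refine ⟨t, L + 1 + ∑ i ∈ Finset.range (t + 1), ∑ k : K, ((f i).2 k).length, f,
    by omega, by omega, h0, ht, hs, ?_⟩
  intro i hi k
  have h1 : ((f i).2 k).length ≤ ∑ k : K, ((f i).2 k).length :=
    Finset.single_le_sum (f := fun k => ((f i).2 k).length) (fun _ _ => Nat.zero_le _)
      (Finset.mem_univ k)
  have h2 : (∑ k : K, ((f i).2 k).length) ≤
      ∑ i ∈ Finset.range (t + 1), ∑ k : K, ((f i).2 k).length :=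
    Finset.single_le_sum (f := fun i => ∑ k : K, ((f i).2 k).length) (fun _ _ => Nat.zero_le _)
      (Finset.mem_range.2 (by omega))
  omega

end Pool.Agent.Run7.h638.WR
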